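import Mathlib

set_option autoImplicit false

namespace Pool.Agent.Helper94.MinRam

/-- `Mono G c S H`: some colour class of the symmetric 2-colouring `c` of the edges of `G` contains a
copy of `H` with all vertices in `S`. -/
def Mono {V W : Type*} (G : SimpleGraph V) (c : V → V → Fin 2) (S : Set V) (H : SimpleGraph W) :
    Prop :=
  ∃ i : Fin 2, ∃ f : W → V, Function.Injective f ∧ (∀ u, f u ∈ S) ∧
    ∀ u v : W, H.Adj u v → G.Adj (f u) (f v) ∧ c (f u) (f v) = i

/-- `G[S] → H` -/
def ArrowOn {V W : Type*} (G : SimpleGraph V) (S : Set V) (H : SimpleGraph W) : Prop :=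
  ∀ c : V → V → Fin 2, (∀ a b, c a b = c b a) → Mono G c S H

/-- There is a Ramsey-minimal graph `G` for `H` with a vertex of degree at most `k`, in other words
`s(H) ≤ k`.  The first condition says `G → H`, the second that no proper subgraph `G'` of `G`
(with vertex set `S`) satisfies `G' → H`. -/
def HasMin {n : ℕ} (H : SimpleGraph (Fin n)) (k : ℕ) : Prop :=
  ∃ m : ℕ, ∃ G : SimpleGraph (Fin m),
    (∀ c : Fin m → Fin m → Fin 2, (∀ a b : Fin m, c a b = c b a) →
      ∃ i : Fin 2, ∃ f : Fin n → Fin m,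
        Function.Injective f ∧
          ∀ u v : Fin n, H.Adj u v → G.Adj (f u) (f v) ∧ c (f u) (f v) = i) ∧
    (∀ S : Set (Fin m), ∀ G' : SimpleGraph (Fin m), G' ≤ G →
        ¬ (S = Set.univ ∧ G' = G) →
        ∃ c : Fin m → Fin m → Fin 2, (∀ a b : Fin m, c a b = c b a) ∧
          ∀ i : Fin 2, ∀ f : Fin n → Fin m,
            Function.Injective f → (∀ u : Fin n, f u ∈ S) →
              ∃ u v : Fin n, H.Adj u v ∧
                ¬ (G'.Adj (f u) (f v) ∧ c (f u) (f v) = i)) ∧
    ∃ x : Fin m, (G.neighborSet x).ncard ≤ k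

theorem HasMin.mono {n : ℕ} {H : SimpleGraph (Fin n)} {k l : ℕ} (h : HasMin H k) (hkl : k ≤ l) :
    HasMin H l := by
  obtain ⟨m, G, h1, h2, x, hx⟩ := h
  exact ⟨m, G, h1, h2, x, hx.trans hkl⟩

/-- Extraction of a Ramsey-minimal graph. -/
theorem hasMin_of {n : ℕ} (H : SimpleGraph (Fin n)) {V : Type*} [Finite V]
    (G : SimpleGraph V) (A : Set V) (k : ℕ)
    (h1 : ArrowOn G Set.univ H)
    (h2 : ¬ ArrowOn G A H)
    (h3 : ∀ x, x ∉ A → (G.neighborSet x).ncard ≤ k) : HasMin H k := by
  classical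
  -- minimal pair
  have hwf : WellFounded ((· < ·) : Set V × SimpleGraph V → Set V × SimpleGraph V → Prop) :=
    Finite.wellFounded_of_trans_of_irrefl _
  obtain ⟨⟨S, G'⟩, ⟨hG', hS⟩, hmin⟩ := hwf.has_min
    {p : Set V × SimpleGraph V | p.2 ≤ G ∧ ArrowOn p.2 p.1 H} ⟨(Set.univ, G), le_rfl, h1⟩
  simp only at hG' hS
  -- a vertex of `S` outside `A`
  have hex : ∃ x ∈ S, x ∉ A := by
    by_contra hcon
    push Not at hcon
    apply h2
    intro c hc
    obtain ⟨i, f, hf, hfS, hfe⟩ := hS c hc
    exact ⟨i, f, hf, fun u => hcon _ (hfS u), fun u v huv => ⟨hG' (hfe u v huv).1, (hfe u v huv).2⟩⟩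
  obtain ⟨x, hxS, hxA⟩ := hex
  -- enumeration of S
  have : Fintype S := Fintype.ofFinite _
  let e : Fin (Fintype.card S) ≃ S := (Fintype.equivFin S).symm
  let j : Fin (Fintype.card S) → V := fun a => (e a : V)
  have hj : Function.Injective j := fun a b hab => e.injective (Subtype.ext hab)
  have hjS : ∀ a, j a ∈ S := fun a => (e a).2
  have hjs : ∀ y ∈ S, ∃ a, j a = y := fun y hy => ⟨e.symm ⟨y, hy⟩, by simp [j]⟩
  refine ⟨Fintype.card S, G'.comap j, ?_, ?_, ?_⟩
  · intro c hc
    -- extend the colouring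
    let inv : V → Fin (Fintype.card S) := fun y => if hy : y ∈ S then e.symm ⟨y, hy⟩ else e.symm ⟨x, hxS⟩
    have hinv : ∀ a, inv (j a) = a := by
      intro a
      simp [inv, j]
    obtain ⟨i, f, hf, hfS, hfe⟩ := hS (fun a b => c (inv a) (inv b)) (fun a b => hc _ _)
    have hji : ∀ y ∈ S, j (inv y) = y := by
      intro y hy
      obtain ⟨a, rfl⟩ := hjs y hy
      rw [hinv]
    refine ⟨i, fun u => inv (f u), ?_, ?_⟩
    · intro u v huv
      have : j (inv (f u)) = j (inv (f v)) := congrArg j huv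
      rw [hji _ (hfS u), hji _ (hfS v)] at this
      exact hf this
    · intro u v huv
      obtain ⟨h4, h5⟩ := hfe u v huv
      refine ⟨?_, h5⟩
      simp only [SimpleGraph.comap_adj]
      rw [hji _ (hfS u), hji _ (hfS v)]
      exact h4
  · intro S' K hK hne
    let K' : SimpleGraph V :=
      { Adj := fun a b => ∃ x y, K.Adj x y ∧ j x = a ∧ j y = b
        symm := ⟨by
          rintro a b ⟨x, y, h, rfl, rfl⟩
          exact ⟨y, x, h.symm, rfl, rfl⟩⟩
        loopless := ⟨by
          rintro a ⟨x, y, h, hx, hy⟩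
          have hxy : x = y := hj (hx.trans hy.symm)
          subst hxy
          exact K.irrefl h⟩ }
    have hK'le : K' ≤ G' := by
      rintro a b ⟨x, y, h, rfl, rfl⟩
      exact hK h
    have hS'le : j '' S' ⊆ S := by
      rintro _ ⟨a, _, rfl⟩
      exact hjS a
    have hlt : (j '' S', K') < (S, G') := by
      refine lt_of_le_of_ne ⟨hS'le, hK'le⟩ ?_
      intro heq
      rw [Prod.mk.injEq] at heq
      apply hne
      constructor
      · ext a
        simp only [Set.mem_univ, iff_true]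
        have : j a ∈ j '' S' := by rw [heq.1]; exact hjS a
        obtain ⟨b, hb, hba⟩ := this
        rw [← hj hba]; exact hb
      · rw [← heq.2]
        ext a b
        simp only [SimpleGraph.comap_adj, K']
        constructor
        · intro h
          exact ⟨a, b, h, rfl, rfl⟩
        · rintro ⟨x, y, h, hx, hy⟩
          rw [← hj hx, ← hj hy]
          exact h
    have hnot : ¬ ArrowOn K' (j '' S') H := fun h => hmin (j '' S', K') ⟨hK'le.trans hG', h⟩ hlt
    unfold ArrowOn at hnot
    push Not at hnot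
    obtain ⟨c, hc, hno⟩ := hnot
    refine ⟨fun a b => c (j a) (j b), fun a b => hc _ _, ?_⟩
    intro i f hf hfS
    by_contra hcon
    push Not at hcon
    apply hno
    refine ⟨i, fun u => j (f u), fun u v huv => hf (hj huv), fun u => ⟨f u, hfS u, rfl⟩, ?_⟩
    intro u v huv
    obtain ⟨h4, h5⟩ := hcon u v huv
    exact ⟨⟨f u, f v, h4, rfl, rfl⟩, h5⟩
  · obtain ⟨a, ha⟩ := hjs x hxS
    refine ⟨a, ?_⟩
    refine le_trans ?_ (h3 x hxA)
    have : j '' ((G'.comap j).neighborSet a) ⊆ G.neighborSet x := by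
      rintro _ ⟨b, hb, rfl⟩
      simp only [SimpleGraph.mem_neighborSet, SimpleGraph.comap_adj] at hb ⊢
      rw [← ha]
      exact hG' hb
    calc ((G'.comap j).neighborSet a).ncard = (j '' ((G'.comap j).neighborSet a)).ncard :=
          (Set.ncard_image_of_injective _ hj).symm
      _ ≤ (G.neighborSet x).ncard := Set.ncard_le_ncard this (Set.toFinite _)

end Pool.Agent.Helper94.MinRam
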