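import Mathlib
import Pool.Agent.Helper94.SWRamsey

set_option autoImplicit false

namespace Pool.Agent.Helper94.MinRam

open Pool.Agent.Helper94.SWRamsey

/-- Product Ramsey theorem for tuples of `a`-sets. -/
theorem prod_ramsey (a : ℕ) : ∀ (M : ℕ) (γ : Type) [Finite γ] (L : ℕ), ∃ N : ℕ,
    ∀ f : (Fin M → Finset ℕ) → γ, ∃ T : Fin M → Finset ℕ,
      (∀ i, T i ⊆ Finset.range N ∧ (T i).card = L) ∧ ∃ col : γ, ∀ U : Fin M → Finset ℕ,
        (∀ i, U i ⊆ T i ∧ (U i).card = a) → f U = col := by
  intro M
  induction M with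
  | zero =>
    intro γ _ L
    refine ⟨0, fun f => ⟨fun i => i.elim0, fun i => i.elim0, f (fun i => i.elim0), fun U _ => ?_⟩⟩
    congr 1
    funext i
    exact i.elim0
  | succ M ih =>
    intro γ _ L
    classical
    obtain ⟨N0, hN0⟩ := ih γ L
    obtain ⟨N1, hN1⟩ := ramsey_general a ((Fin M → Finset (Fin N0)) → γ) L
    refine ⟨max N0 N1, fun f => ?_⟩
    let g : Finset ℕ → ((Fin M → Finset (Fin N0)) → γ) := fun U V =>
      f (Fin.snoc (α := fun _ => Finset ℕ) (fun i => (V i).map Fin.valEmbedding) U)
    obtain ⟨T1, hT1, hT1c, col1, hcol1⟩ := hN1 (Finset.range N1) (by simp) g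
    let f' : (Fin M → Finset ℕ) → γ := fun V =>
      col1 (fun i => Finset.univ.filter (fun x : Fin N0 => (x : ℕ) ∈ V i))
    obtain ⟨T0, hT0, col, hcol⟩ := hN0 f'
    refine ⟨Fin.snoc (α := fun _ => Finset ℕ) T0 T1, ?_, col, ?_⟩
    · intro i
      refine Fin.lastCases ?_ (fun i => ?_) i
      · rw [Fin.snoc_last]
        refine ⟨hT1.trans ?_, hT1c⟩
        intro x hx
        rw [Finset.mem_range] at hx ⊢
        exact lt_of_lt_of_le hx (le_max_right _ _)
      · rw [Fin.snoc_castSucc]
        refine ⟨(hT0 i).1.trans ?_, (hT0 i).2⟩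
        intro x hx
        rw [Finset.mem_range] at hx ⊢
        exact lt_of_lt_of_le hx (le_max_left _ _)
    · intro U hU
      have hUl : U (Fin.last M) ⊆ T1 ∧ (U (Fin.last M)).card = a := by
        have := hU (Fin.last M)
        rwa [Fin.snoc_last] at this
      have hUi : ∀ i : Fin M, U i.castSucc ⊆ T0 i ∧ (U i.castSucc).card = a := by
        intro i
        have := hU i.castSucc
        rwa [Fin.snoc_castSucc] at this
      have h1 : U = Fin.snoc (α := fun _ => Finset ℕ)
          (fun i => (Finset.univ.filter (fun x : Fin N0 => (x : ℕ) ∈ U i.castSucc)).map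
            Fin.valEmbedding) (U (Fin.last M)) := by
        funext i
        refine Fin.lastCases ?_ (fun i => ?_) i
        · rw [Fin.snoc_last]
        · rw [Fin.snoc_castSucc]
          ext x
          simp only [Finset.mem_map, Finset.mem_filter, Finset.mem_univ, true_and,
            Fin.valEmbedding_apply]
          constructor
          · intro hx
            have : x < N0 := Finset.mem_range.1 ((hT0 i).1 ((hUi i).1 hx))
            exact ⟨⟨x, this⟩, hx, rfl⟩
          · rintro ⟨y, hy, rfl⟩
            exact hy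
      calc f U = g (U (Fin.last M))
            (fun i => Finset.univ.filter (fun x : Fin N0 => (x : ℕ) ∈ U i.castSucc)) := by
            conv_lhs => rw [h1]
        _ = f' (fun i => U i.castSucc) := by
            rw [hcol1 _ hUl.1 hUl.2]
        _ = col := hcol _ hUi

end Pool.Agent.Helper94.MinRam
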