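import Mathlib
import Pool.Agent.Helper94.MinRam.Basic
import Pool.Agent.Helper94.MinRam.ProdRamsey

set_option autoImplicit false

namespace Pool.Agent.Helper94.MinRam

open Pool.Agent.Helper94.SWRamsey

/-- Vertices of the blow-up of `F - v` together with the new vertices. -/
abbrev Vtx (M N T : ℕ) : Type := (Fin M × Fin (N + 1)) ⊕ ((Fin M → Finset (Fin (N + 1))) × Fin T)

/-- The blow-up of `F - v` (`v` the last vertex) together with new vertices, joined to at most
`κ` vertices in every part belonging to a neighbour of `v`. -/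
def bigGraph {M : ℕ} (F : SimpleGraph (Fin (M + 1))) (κ N T : ℕ) : SimpleGraph (Vtx M N T) where
  Adj p q := match p, q with
    | Sum.inl (i, _), Sum.inl (j, _) => F.Adj i.castSucc j.castSucc
    | Sum.inl (i, x), Sum.inr (W, _) => F.Adj i.castSucc (Fin.last M) ∧ (W i).card ≤ κ ∧ x ∈ W i
    | Sum.inr (W, _), Sum.inl (i, x) => F.Adj i.castSucc (Fin.last M) ∧ (W i).card ≤ κ ∧ x ∈ W i
    | Sum.inr _, Sum.inr _ => False
  symm := ⟨by
    rintro (⟨i, x⟩ | ⟨W, t⟩) (⟨j, y⟩ | ⟨W', t'⟩) h
    · exact h.symm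
    · exact h
    · exact h
    · exact h⟩
  loopless := ⟨by
    rintro (⟨i, x⟩ | ⟨W, t⟩) h
    · exact F.irrefl h
    · exact h⟩

theorem bigGraph_degree {M : ℕ} (F : SimpleGraph (Fin (M + 1))) (κ N T : ℕ)
    (b : (Fin M → Finset (Fin (N + 1))) × Fin T) :
    ((bigGraph F κ N T).neighborSet (Sum.inr b)).ncard ≤
      (F.neighborSet (Fin.last M)).ncard * κ := by
  classical
  obtain ⟨W, t⟩ := b
  let D : Finset (Fin M) := Finset.univ.filter (fun i => F.Adj i.castSucc (Fin.last M))
  let g : Fin M → Finset (Vtx M N T) := fun i =>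
    if (W i).card ≤ κ then (W i).image (fun x => Sum.inl (i, x)) else ∅
  have h1 : (bigGraph F κ N T).neighborSet (Sum.inr (W, t)) ⊆ (D.biUnion g : Finset (Vtx M N T)) := by
    rintro (⟨i, x⟩ | ⟨W', t'⟩) h
    · have h' : F.Adj i.castSucc (Fin.last M) ∧ (W i).card ≤ κ ∧ x ∈ W i := h
      simp only [Finset.coe_biUnion, Set.mem_iUnion, Finset.mem_coe]
      refine ⟨i, Finset.mem_filter.2 ⟨Finset.mem_univ _, h'.1⟩, ?_⟩
      simp only [g, if_pos h'.2.1, Finset.mem_image]
      exact ⟨x, h'.2.2, rfl⟩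
    · exact absurd h (fun h => h)
  have h2 : (D.biUnion g).card ≤ D.card * κ := by
    apply Finset.card_biUnion_le_card_mul
    intro i _
    simp only [g]
    split_ifs with hi
    · exact Finset.card_image_le.trans hi
    · simp
  have h3 : D.card ≤ (F.neighborSet (Fin.last M)).ncard := by
    rw [← Finset.card_map Fin.castSuccEmb, ← Set.ncard_coe_finset]
    apply Set.ncard_le_ncard _ (Set.toFinite _)
    intro x hx
    simp only [Finset.coe_map, Set.mem_image, Finset.mem_coe] at hx
    obtain ⟨i, hi, rfl⟩ := hx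
    exact ((Finset.mem_filter.1 hi).2).symm
  calc ((bigGraph F κ N T).neighborSet (Sum.inr (W, t))).ncard
      ≤ ((D.biUnion g : Finset (Vtx M N T)) : Set (Vtx M N T)).ncard :=
        Set.ncard_le_ncard h1 (Set.toFinite _)
    _ = (D.biUnion g).card := Set.ncard_coe_finset _
    _ ≤ D.card * κ := h2
    _ ≤ _ := Nat.mul_le_mul_right _ h3

/-- Pigeonhole for 2-colourings of sets with `2a-1` elements. -/
theorem majority (a : ℕ) (W : Finset ℕ) (hW : 2 * a - 1 ≤ W.card) (c : ℕ → Fin 2) :
    ∃ ε : Fin 2, ∃ Y ⊆ W, Y.card = a ∧ ∀ y ∈ Y, c y = ε := by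
  classical
  have h1 := Finset.card_filter_add_card_filter_not (s := W) (fun y => c y = 0)
  have h3 : (W.filter (fun y => ¬ c y = 0)) ⊆ W.filter (fun y => c y = 1) := by
    intro y hy
    rw [Finset.mem_filter] at hy ⊢
    exact ⟨hy.1, by have := hy.2; omega⟩
  by_cases h : a ≤ (W.filter (fun y => c y = 0)).card
  · obtain ⟨Y, hY, hYc⟩ := Finset.exists_subset_card_eq h
    exact ⟨0, Y, hY.trans (Finset.filter_subset _ _), hYc, fun y hy => (Finset.mem_filter.1 (hY hy)).2⟩
  · have h2 : a ≤ (W.filter (fun y => c y = 1)).card := by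
      have := Finset.card_le_card h3
      omega
    obtain ⟨Y, hY, hYc⟩ := Finset.exists_subset_card_eq h2
    exact ⟨1, Y, hY.trans (Finset.filter_subset _ _), hYc, fun y hy => (Finset.mem_filter.1 (hY hy)).2⟩

end Pool.Agent.Helper94.MinRam
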