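import Mathlib
import Pool.Agent.Helper94.MinRam.Core

set_option autoImplicit false

namespace Pool.Agent.Helper94.MinRam

open Pool.Agent.Helper94.SWRamsey

/-- The blow-up lemma. -/
theorem blowup {n M a : ℕ} (H : SimpleGraph (Fin n)) (F : SimpleGraph (Fin (M + 1))) (ha : 1 ≤ a)
    (hQ : ∃ τ : Fin (M + 1) → Fin (M + 1) → Fin 2, (∀ p q, τ p q = τ q p) ∧
      ∀ (i : Fin 2) (φ : Fin n → Fin (M + 1)), (∀ u, φ u ≠ Fin.last M) →
        ∃ u v, H.Adj u v ∧ ¬ (F.Adj (φ u) (φ v) ∧ τ (φ u) (φ v) = i))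
    (hP : ∀ τ : Fin (M + 1) → Fin (M + 1) → Fin 2, (∀ p q, τ p q = τ q p) →
      ∃ (i : Fin 2) (φ : Fin n → Fin (M + 1)),
        (∀ u v, H.Adj u v → F.Adj (φ u) (φ v) ∧ τ (φ u) (φ v) = i) ∧
        ∀ u, φ u = Fin.last M → ∀ j, {w | H.Adj u w ∧ φ w = j}.ncard ≤ a) :
    HasMin H ((F.neighborSet (Fin.last M)).ncard * (2 * a - 1)) := by
  classical
  set κ := 2 * a - 1 with hκ
  obtain ⟨N2, hN2⟩ := prod_ramsey a M (Set (Fin M → Fin 2)) (n + κ)
  obtain ⟨N1, hN1⟩ := prod_ramsey 1 M (Fin M → Fin M → Fin 2) N2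
  set T := n * (2 ^ M * (2 ^ κ) ^ M) with hT
  refine hasMin_of H (bigGraph F κ N1 T) {p | ∃ q, p = Sum.inl q} _ ?_ ?_ ?_
  rotate_left
  · -- base graph is not Ramsey
    intro hcon
    obtain ⟨τ, hτ, hno⟩ := hQ
    obtain ⟨i, f, hf, hfA, hfe⟩ := hcon (fun p q => match p, q with
      | Sum.inl (i, _), Sum.inl (j, _) => τ i.castSucc j.castSucc
      | _, _ => 0) (by
        rintro (⟨i, x⟩ | ⟨W, t⟩) (⟨j, y⟩ | ⟨W', t'⟩)
        · exact hτ _ _
        · rfl
        · rfl
        · rfl)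
    choose g hg using hfA
    obtain ⟨u, v, huv, hneg⟩ := hno i (fun u => (g u).1.castSucc) (fun u => Fin.castSucc_ne_last _)
    apply hneg
    have := hfe u v huv
    rw [hg u, hg v] at this
    exact this
  · -- degrees
    rintro (⟨i, x⟩ | b) hx
    · exact absurd ⟨_, rfl⟩ hx
    · exact bigGraph_degree F κ N1 T b
  -- the Ramsey property
  intro c hc
  let emb : Fin M → ℕ → Vtx M N1 T := fun i x => Sum.inl (i, Fin.ofNat (N1 + 1) x)
  have hemb : ∀ i j x y, x < N1 → y < N1 → emb i x = emb j y → i = j ∧ x = y := by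
    intro i j x y hx hy h
    simp only [emb, Sum.inl.injEq, Prod.mk.injEq] at h
    refine ⟨h.1, ?_⟩
    have h2 := congrArg Fin.val h.2
    simp only [Fin.val_ofNat] at h2
    rwa [Nat.mod_eq_of_lt (by omega), Nat.mod_eq_of_lt (by omega)] at h2
  -- step 1
  obtain ⟨T1, hT1, col1, hcol1⟩ := hN1 (fun Y i j => c (emb i ((Y i).sup id)) (emb j ((Y j).sup id)))
  -- step 2
  have hen : ∀ i, ∃ h : ℕ → ℕ, (∀ a b, a < b → b < N2 → h a < h b) ∧ (∀ a, a < N2 → h a < N1) ∧
      ∀ a, a < N2 → h a ∈ T1 i := fun i => exists_enum (T1 i) N2 N1 (hT1 i).1 (hT1 i).2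
  choose h hh1 hh2 hh3 using hen
  have hinj : ∀ i x y, x < N2 → y < N2 → h i x = h i y → x = y := by
    intro i x y hx hy hxy
    rcases lt_trichotomy x y with hlt | heq | hgt
    · have := hh1 i x y hlt hy; omega
    · exact heq
    · have := hh1 i y x hgt hx; omega
  let good : (Fin M → Finset ℕ) → (Fin M → Fin 2) → Finset ((Fin M → Finset (Fin (N1 + 1))) × Fin T) :=
    fun Y ε => Finset.univ.filter (fun b => ∀ i, F.Adj i.castSucc (Fin.last M) → ∀ y ∈ Y i,
      (bigGraph F κ N1 T).Adj (Sum.inr b) (emb i (h i y)) ∧ c (Sum.inr b) (emb i (h i y)) = ε i)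
  obtain ⟨T2, hT2, S, hS⟩ := hN2 (fun Y => {ε | n ≤ (good Y ε).card})
  have hT2lt : ∀ i x, x ∈ T2 i → x < N2 := fun i x hx => Finset.mem_range.1 ((hT2 i).1 hx)
  -- colours between the parts
  have hpair : ∀ i j, i ≠ j → ∀ x ∈ T2 i, ∀ y ∈ T2 j, c (emb i (h i x)) (emb j (h j y)) = col1 i j := by
    intro i j hij x hx y hy
    have hx' := hT2lt i x hx
    have hy' := hT2lt j y hy
    have hN2pos : 0 < N2 := by omega
    have := hcol1 (fun k => if k = i then {h i x} else if k = j then {h j y} else {h k 0}) (by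
      intro k
      by_cases hki : k = i
      · subst hki
        simp only [if_true]
        exact ⟨by simpa using hh3 _ _ hx', Finset.card_singleton _⟩
      · rw [if_neg hki]
        by_cases hkj : k = j
        · subst hkj
          simp only [if_true]
          exact ⟨by simpa using hh3 _ _ hy', Finset.card_singleton _⟩
        · rw [if_neg hkj]
          exact ⟨by simpa using hh3 _ _ hN2pos, Finset.card_singleton _⟩)
    have h2 := congrFun (congrFun this i) j
    simp only [if_true, if_neg (Ne.symm hij), Finset.sup_singleton, id] at h2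
    exact h2
  -- step 3 : S nonempty
  have hSne : ∃ ε, ε ∈ S ∧ ∃ W' : Fin M → Finset ℕ, True := by
    have hW : ∀ i, ∃ W' ⊆ T2 i, W'.card = κ := fun i =>
      Finset.exists_subset_card_eq (by rw [(hT2 i).2]; omega)
    choose W' hW' hW'c using hW
    let W : Fin M → Finset (Fin (N1 + 1)) := fun i =>
      (W' i).image (fun y => Fin.ofNat (N1 + 1) (h i y))
    have hWc : ∀ i, (W i).card ≤ κ := fun i => Finset.card_image_le.trans (hW'c i).le
    -- pattern for each `t`
    have hpat : ∀ t : Fin T, ∀ i, ∃ ε : Fin 2, ∃ Y ⊆ W' i, Y.card = a ∧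
        ∀ y ∈ Y, c (Sum.inr (W, t)) (emb i (h i y)) = ε := fun t i =>
      majority a (W' i) (by rw [hW'c i]) (fun y => c (Sum.inr (W, t)) (emb i (h i y)))
    choose ε Y hY hYc hYε using hpat
    let tgt : Finset ((Fin M → Fin 2) × (Fin M → Finset ℕ)) :=
      Finset.univ ×ˢ Fintype.piFinset (fun i => (W' i).powerset)
    have htgt : tgt.card = 2 ^ M * (2 ^ κ) ^ M := by
      simp only [tgt, Finset.card_product, Finset.card_univ, Fintype.card_pi, Fintype.card_fin,
        Fintype.card_piFinset, Finset.card_powerset, hW'c, Finset.prod_const]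
    have hmaps : ∀ t ∈ (Finset.univ : Finset (Fin T)), (ε t, Y t) ∈ tgt := by
      intro t _
      simp only [tgt, Finset.mem_product, Finset.mem_univ, true_and, Fintype.mem_piFinset,
        Finset.mem_powerset]
      exact hY t
    have hne : tgt.Nonempty := by
      rw [← Finset.card_pos, htgt]; positivity
    obtain ⟨⟨ε0, Y0⟩, hmem0, hcard0⟩ := Finset.exists_le_card_fiber_of_mul_le_card_of_maps_to
      (n := n) hmaps hne (by rw [htgt, Finset.card_univ, Fintype.card_fin, hT, mul_comm])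
    refine ⟨ε0, ?_, W', trivial⟩
    by_cases hn0 : n = 0
    · -- trivial: need the status of some tuple
      obtain ⟨Z, hZ⟩ : ∃ Z : Fin M → Finset ℕ, ∀ i, Z i ⊆ T2 i ∧ (Z i).card = a := by
        have : ∀ i, ∃ Z ⊆ T2 i, Z.card = a := fun i =>
          Finset.exists_subset_card_eq (by rw [(hT2 i).2]; omega)
        choose Z hZ1 hZ2 using this
        exact ⟨Z, fun i => ⟨hZ1 i, hZ2 i⟩⟩
      rw [← hS Z hZ]
      simp only [Set.mem_ofPred_eq, hn0, Nat.zero_le]
    -- the fibre is nonempty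
    have hfib : (Finset.univ.filter (fun t : Fin T => (ε t, Y t) = (ε0, Y0))).Nonempty := by
      rw [← Finset.card_pos]; omega
    obtain ⟨t0, ht0⟩ := hfib
    have ht0' := (Finset.mem_filter.1 ht0).2
    simp only [Prod.mk.injEq] at ht0'
    have hZ : ∀ i, Y0 i ⊆ T2 i ∧ (Y0 i).card = a := by
      intro i
      rw [← ht0'.2]
      exact ⟨(hY t0 i).trans (hW' i), hYc t0 i⟩
    rw [← hS Y0 hZ]
    simp only [Set.mem_ofPred_eq]
    refine hcard0.trans ?_
    apply Finset.card_le_card_of_injOn (fun t => (W, t))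
    · intro t ht
      have ht' := (Finset.mem_filter.1 (Finset.mem_coe.1 ht)).2
      simp only [Prod.mk.injEq] at ht'
      simp only [good, Finset.coe_filter, Finset.mem_univ, true_and, Set.mem_ofPred_eq]
      intro i hi y hy
      have hyt : y ∈ Y t i := by rw [ht'.2]; exact hy
      refine ⟨⟨hi, hWc i, Finset.mem_image_of_mem _ (hY t i hyt)⟩, ?_⟩
      rw [← ht'.1]
      exact hYε t i y hyt
    · intro t _ t' _ htt
      simp only [Prod.mk.injEq, true_and] at htt
      exact htt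
  obtain ⟨ε, hεS, -⟩ := hSne
  -- step 4 : the colouring of `F`
  let τ : Fin (M + 1) → Fin (M + 1) → Fin 2 := fun p =>
    Fin.lastCases (motive := fun _ => Fin (M + 1) → Fin 2)
      (fun q => Fin.lastCases (motive := fun _ => Fin 2) 0 ε q)
      (fun i q => Fin.lastCases (motive := fun _ => Fin 2) (ε i)
        (fun j => if i = j then 0 else col1 i j) q) p
  have τll : τ (Fin.last M) (Fin.last M) = 0 := by simp [τ]
  have τlc : ∀ j, τ (Fin.last M) (Fin.castSucc j) = ε j := by intro j; simp [τ]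
  have τcl : ∀ j, τ (Fin.castSucc j) (Fin.last M) = ε j := by intro j; simp [τ]
  have τcc : ∀ i j, i ≠ j → τ (Fin.castSucc i) (Fin.castSucc j) = col1 i j := by
    intro i j hij; simp [τ, hij]
  have τcd : ∀ i, τ (Fin.castSucc i) (Fin.castSucc i) = 0 := by intro i; simp [τ]
  have hT2ne : ∀ i, ∃ x, x ∈ T2 i := by
    intro i
    have : (T2 i).Nonempty := by
      rw [← Finset.card_pos, (hT2 i).2]; omega
    exact this
  have hcol1 : ∀ i j, i ≠ j → col1 i j = col1 j i := by
    intro i j hij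
    obtain ⟨x, hx⟩ := hT2ne i
    obtain ⟨y, hy⟩ := hT2ne j
    rw [← hpair i j hij x hx y hy, hc, hpair j i hij.symm y hy x hx]
  have hτsymm : ∀ p q, τ p q = τ q p := by
    intro p q
    refine Fin.lastCases ?_ (fun i => ?_) p
    · refine Fin.lastCases rfl (fun j => ?_) q
      rw [τlc, τcl]
    · refine Fin.lastCases ?_ (fun j => ?_) q
      · rw [τlc, τcl]
      · by_cases hij : i = j
        · rw [hij]
        · rw [τcc i j hij, τcc j i (Ne.symm hij), hcol1 i j hij]
  obtain ⟨i0, φ, hφ, hφa⟩ := hP τ hτsymm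
  -- step 5 : positions
  have hpos : ∀ i, ∃ g : ℕ → ℕ, (∀ x y, x < n → y < n → g x = g y → x = y) ∧
      ∀ x, x < n → g x ∈ T2 i := by
    intro i
    obtain ⟨g, hg1, -, hg3⟩ := exists_enum (T2 i) (n + κ) N2 (hT2 i).1 (hT2 i).2
    refine ⟨g, ?_, fun x hx => hg3 x (by omega)⟩
    intro x y hx hy hxy
    rcases lt_trichotomy x y with hlt | heq | hgt
    · have := hg1 x y hlt (by omega); omega
    · exact heq
    · have := hg1 y x hgt (by omega); omega
  choose g hg1 hg2 using hpos
  have hBex : ∀ u : Fin n, ∃ B : Finset ((Fin M → Finset (Fin (N1 + 1))) × Fin T), n ≤ B.card ∧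
      (φ u = Fin.last M → ∀ b ∈ B, ∀ w, H.Adj u w → ∀ i : Fin M, φ w = i.castSucc →
        (bigGraph F κ N1 T).Adj (Sum.inr b) (emb i (h i (g i w))) ∧
          c (Sum.inr b) (emb i (h i (g i w))) = i0) := by
    intro u
    have hY : ∀ i : Fin M, ∃ Y : Finset ℕ, Y ⊆ T2 i ∧ Y.card = a ∧
        (φ u = Fin.last M → ∀ w, H.Adj u w → φ w = i.castSucc → g i w ∈ Y) := by
      intro i
      by_cases hu : φ u = Fin.last M
      · let X : Finset ℕ := (Finset.univ.filter (fun w : Fin n => H.Adj u w ∧ φ w = i.castSucc)).image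
          (fun w : Fin n => g i (w : ℕ))
        have hX1 : X ⊆ T2 i := by
          intro x hx
          obtain ⟨w, -, rfl⟩ := Finset.mem_image.1 hx
          exact hg2 i w w.2
        have hX2 : X.card ≤ a := by
          refine Finset.card_image_le.trans ?_
          have := hφa u hu i.castSucc
          rwa [← Set.ncard_coe_finset, Finset.coe_filter_univ]
        obtain ⟨Y, hXY, hYT, hYc⟩ := Finset.exists_subsuperset_card_eq hX1 hX2
          (by rw [(hT2 i).2]; omega)
        refine ⟨Y, hYT, hYc, fun _ w hw hwi => hXY ?_⟩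
        exact Finset.mem_image.2 ⟨w, Finset.mem_filter.2 ⟨Finset.mem_univ _, hw, hwi⟩, rfl⟩
      · obtain ⟨Y, hY, hYc⟩ := Finset.exists_subset_card_eq (s := T2 i) (n := a)
          (by rw [(hT2 i).2]; omega)
        exact ⟨Y, hY, hYc, fun h => absurd h hu⟩
    choose Y hY1 hY2 hY3 using hY
    have hε : ε ∈ {ε | n ≤ (good Y ε).card} := by
      rw [hS Y (fun i => ⟨hY1 i, hY2 i⟩)]
      exact hεS
    refine ⟨good Y ε, hε, ?_⟩
    intro hu b hb w hw i hi
    have hb' := (Finset.mem_filter.1 hb).2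
    obtain ⟨h1, h2⟩ := hφ u w hw
    rw [hu, hi] at h1 h2
    have h3 := hb' i h1.symm (g i w) (hY3 i hu w hw hi)
    refine ⟨h3.1, ?_⟩
    rw [h3.2, ← τlc, h2]
  choose B hBc hB using hBex
  -- Hall
  obtain ⟨b, hbinj, hb⟩ := (Finset.all_card_le_biUnion_card_iff_exists_injective B).1 (by
    intro s
    rcases s.eq_empty_or_nonempty with rfl | ⟨u, hu⟩
    · simp
    · calc s.card ≤ (Finset.univ : Finset (Fin n)).card := Finset.card_le_card (Finset.subset_univ _)
        _ = n := by simp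
        _ ≤ (B u).card := hBc u
        _ ≤ (s.biUnion B).card := Finset.card_le_card (Finset.subset_biUnion_of_mem B hu))
  let f : Fin n → Vtx M N1 T := fun u =>
    Fin.lastCases (motive := fun _ => Vtx M N1 T) (Sum.inr (b u)) (fun i => emb i (h i (g i u))) (φ u)
  have hfl : ∀ u, φ u = Fin.last M → f u = Sum.inr (b u) := by
    intro u hu; simp only [f, hu, Fin.lastCases_last]
  have hfc : ∀ u i, φ u = Fin.castSucc i → f u = emb i (h i (g i u)) := by
    intro u i hu; simp only [f, hu, Fin.lastCases_castSucc]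
  have hcases : ∀ p : Fin (M + 1), p = Fin.last M ∨ ∃ i : Fin M, p = Fin.castSucc i := by
    intro p
    refine Fin.lastCases (Or.inl rfl) (fun i => Or.inr ⟨i, rfl⟩) p
  refine ⟨i0, f, ?_, fun u => Set.mem_univ _, ?_⟩
  · intro u v huv
    rcases hcases (φ u) with hu | ⟨i, hu⟩ <;> rcases hcases (φ v) with hv | ⟨j, hv⟩
    · rw [hfl u hu, hfl v hv] at huv
      exact hbinj (Sum.inr_injective huv)
    · rw [hfl u hu, hfc v j hv] at huv
      exact absurd huv (by simp [emb])
    · rw [hfc u i hu, hfl v hv] at huv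
      exact absurd huv (by simp [emb])
    · rw [hfc u i hu, hfc v j hv] at huv
      have hu2 := hT2lt i _ (hg2 i u u.2)
      have hv2 := hT2lt j _ (hg2 j v v.2)
      obtain ⟨hij, hxy⟩ := hemb i j _ _ (hh2 i _ hu2) (hh2 j _ hv2) huv
      subst hij
      exact Fin.ext (hg1 i _ _ u.2 v.2 (hinj i _ _ hu2 hv2 hxy))
  · intro u v huv
    obtain ⟨h1, h2⟩ := hφ u v huv
    rcases hcases (φ u) with hu | ⟨i, hu⟩ <;> rcases hcases (φ v) with hv | ⟨j, hv⟩
    · rw [hu, hv] at h1
      exact absurd h1 (F.irrefl)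
    · rw [hfl u hu, hfc v j hv]
      exact hB u hu _ (hb u) v huv j hv
    · rw [hfc u i hu, hfl v hv]
      obtain ⟨h3, h4⟩ := hB v hv _ (hb v) u huv.symm i hu
      exact ⟨h3.symm, by rw [hc]; exact h4⟩
    · rw [hu, hv] at h1 h2
      have hij : i ≠ j := by
        rintro rfl
        exact F.irrefl h1
      rw [hfc u i hu, hfc v j hv]
      refine ⟨h1, ?_⟩
      rw [hpair i j hij _ (hg2 i u u.2) _ (hg2 j v v.2), ← τcc i j hij, h2]

end Pool.Agent.Helper94.MinRam
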