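import Mathlib
import Pool.Agent.Helper94.MinRam.Main

set_option autoImplicit false

namespace Pool.Agent.Helper94.MinRam

open Pool.Agent.Helper94.SWRamsey

/-- `K_R → K_r`: every 2-colouring of the edges of the complete graph on `R` vertices has a
monochromatic complete subgraph on `r` vertices. -/
def CliqueArrow (R r : ℕ) : Prop :=
  ∀ τ : Fin R → Fin R → Fin 2, (∀ p q, τ p q = τ q p) →
    ∃ i : Fin 2, ∃ g : Fin r → Fin R, Function.Injective g ∧ ∀ a b, a ≠ b → τ (g a) (g b) = i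

/-- Recolouring so that a given class gets a given colour. -/
theorem swap_colouring {n r : ℕ} (H : SimpleGraph (Fin n)) (C : Fin n → Fin r)
    (hC : ∀ u v, H.Adj u v → C u ≠ C v) (a : ℕ) (i1 : Fin r)
    (hi1 : ∀ u, C u = i1 → ∀ j, {w | H.Adj u w ∧ C w = j}.ncard ≤ a) (a0 : Fin r) :
    ∃ C' : Fin n → Fin r, (∀ u v, H.Adj u v → C' u ≠ C' v) ∧
      ∀ u, C' u = a0 → ∀ j, {w | H.Adj u w ∧ C' w = j}.ncard ≤ a := by
  refine ⟨fun u => Equiv.swap i1 a0 (C u), ?_, ?_⟩
  · intro u v huv h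
    exact hC u v huv ((Equiv.swap i1 a0).injective h)
  · intro u hu j
    have hu' : C u = i1 := by
      have h1 : (Equiv.swap i1 a0) (C u) = (Equiv.swap i1 a0) i1 := by
        rw [Equiv.swap_apply_left]; exact hu
      exact (Equiv.swap i1 a0).injective h1
    refine le_trans ?_ (hi1 u hu' (Equiv.swap i1 a0 j))
    apply Set.ncard_le_ncard _ (Set.toFinite _)
    rintro w ⟨hw1, hw2⟩
    refine ⟨hw1, ?_⟩
    rw [← hw2, Equiv.swap_apply_self]

/-- The largest colour class. -/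
theorem large_class {n r : ℕ} (hn : 1 ≤ n) (H : SimpleGraph (Fin n)) (C : Fin n → Fin r)
    (hC : ∀ u v, H.Adj u v → C u ≠ C v) :
    ∃ i1 : Fin r, ∀ u, C u = i1 → ∀ j, {w | H.Adj u w ∧ C w = j}.ncard ≤ n / 2 := by
  classical
  have : Nonempty (Fin r) := ⟨C ⟨0, hn⟩⟩
  let cl : Fin r → Finset (Fin n) := fun i => Finset.univ.filter (fun w => C w = i)
  obtain ⟨i1, -, hi1⟩ := Finset.exists_max_image (Finset.univ : Finset (Fin r)) (fun i => (cl i).card)
    Finset.univ_nonempty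
  refine ⟨i1, fun u hu j => ?_⟩
  by_cases hj : j = i1
  · have : {w | H.Adj u w ∧ C w = j} = ∅ := by
      ext w
      simp only [Set.mem_ofPred_eq, Set.mem_empty_iff_false, iff_false, not_and]
      intro h1 h2
      exact hC u w h1 (by rw [hu, h2, hj])
    rw [this, Set.ncard_empty]
    exact Nat.zero_le _
  · have h1 : {w | H.Adj u w ∧ C w = j}.ncard ≤ (cl j).card := by
      rw [← Set.ncard_coe_finset]
      apply Set.ncard_le_ncard _ (Set.toFinite _)
      rintro w ⟨-, hw⟩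
      simp [cl, hw]
    have h2 : (cl j).card ≤ (cl i1).card := hi1 j (Finset.mem_univ _)
    have h3 : (cl j).card + (cl i1).card ≤ n := by
      rw [← Finset.card_union_of_disjoint]
      · calc _ ≤ (Finset.univ : Finset (Fin n)).card := Finset.card_le_card (Finset.subset_univ _)
          _ = n := by simp
      · rw [Finset.disjoint_left]
        intro w hw1 hw2
        simp only [cl, Finset.mem_filter, Finset.mem_univ, true_and] at hw1 hw2
        exact hj (hw1.symm.trans hw2)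
    omega

/-- `s(H) ≤ s(K_r) (2a-1)` for `r`-colourable `H` containing `K_r`, where some colour class has at
most `a` neighbours per vertex in every other class. -/
theorem clique_bound {n r d a : ℕ} (H : SimpleGraph (Fin n)) (ha : 1 ≤ a)
    (C : Fin n → Fin r) (hC : ∀ u v, H.Adj u v → C u ≠ C v) (i1 : Fin r)
    (hi1 : ∀ u, C u = i1 → ∀ j, {w | H.Adj u w ∧ C w = j}.ncard ≤ a)
    (g : Fin r → Fin n) (hg : ∀ p q, p ≠ q → H.Adj (g p) (g q))
    (hd : HasMin (⊤ : SimpleGraph (Fin r)) d) : HasMin H (d * (2 * a - 1)) := by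
  classical
  obtain ⟨m, G, h1, h2, x, hx⟩ := hd
  obtain ⟨M, rfl⟩ : ∃ M, m = M + 1 := ⟨m - 1, by have := x.pos; omega⟩
  let σ : Equiv.Perm (Fin (M + 1)) := Equiv.swap x (Fin.last M)
  have hσl : σ (Fin.last M) = x := Equiv.swap_apply_right _ _
  have hσσ : ∀ y, σ (σ y) = y := fun y => Equiv.swap_apply_self _ _ _
  let F : SimpleGraph (Fin (M + 1)) := G.comap σ
  have hdeg : (F.neighborSet (Fin.last M)).ncard ≤ d := by
    refine le_trans ?_ hx
    rw [← Set.ncard_image_of_injective _ σ.injective]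
    apply Set.ncard_le_ncard _ (Set.toFinite _)
    rintro _ ⟨y, hy, rfl⟩
    simp only [F, SimpleGraph.mem_neighborSet, SimpleGraph.comap_adj] at hy ⊢
    rwa [hσl] at hy
  refine (blowup (M := M) (a := a) H F ha ?_ ?_).mono (Nat.mul_le_mul_right _ hdeg)
  · -- deleting the vertex
    obtain ⟨c, hc, hno⟩ := h2 {x}ᶜ G le_rfl (by
      rintro ⟨h, -⟩
      have : x ∈ ({x}ᶜ : Set (Fin (M + 1))) := by rw [h]; exact Set.mem_univ _
      exact this rfl)
    refine ⟨fun p q => c (σ p) (σ q), fun p q => hc _ _, ?_⟩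
    intro i φ hφ
    by_contra hcon
    push Not at hcon
    have hadj : ∀ p q : Fin r, p ≠ q → G.Adj (σ (φ (g p))) (σ (φ (g q))) ∧
        c (σ (φ (g p))) (σ (φ (g q))) = i := fun p q hpq => hcon _ _ (hg p q hpq)
    obtain ⟨u, v, huv, hneg⟩ := hno i (fun p => σ (φ (g p))) (by
      intro p q hpq
      by_contra hne
      have := (hadj p q hne).1
      simp only at hpq
      rw [hpq] at this
      exact G.irrefl this) (by
      intro p
      simp only [Set.mem_compl_iff, Set.mem_singleton_iff]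
      intro h
      apply hφ (g p)
      rw [← hσσ (φ (g p)), h]
      exact Equiv.swap_apply_left _ _)
    exact hneg (hadj u v huv)
  · intro τ hτ
    obtain ⟨i, f, hf, hfe⟩ := h1 (fun p q => τ (σ p) (σ q)) (fun p q => hτ _ _)
    by_cases hex : ∃ a0, σ (f a0) = Fin.last M
    · obtain ⟨a0, ha0⟩ := hex
      obtain ⟨C', hC', hC'a⟩ := swap_colouring H C hC a i1 hi1 a0
      refine ⟨i, fun u => σ (f (C' u)), ?_, ?_⟩
      · intro u v huv
        obtain ⟨h3, h4⟩ := hfe _ _ (hC' u v huv)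
        refine ⟨?_, h4⟩
        simp only [F, SimpleGraph.comap_adj, hσσ]
        exact h3
      · intro u hu j
        have hu0 : C' u = a0 := hf (σ.injective (hu.trans ha0.symm))
        by_cases hj : ∃ b0, σ (f b0) = j
        · obtain ⟨b0, rfl⟩ := hj
          refine le_trans ?_ (hC'a u hu0 b0)
          apply Set.ncard_le_ncard _ (Set.toFinite _)
          rintro w ⟨hw1, hw2⟩
          exact ⟨hw1, hf (σ.injective hw2)⟩
        · have : {w | H.Adj u w ∧ σ (f (C' w)) = j} = ∅ := by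
            ext w
            simp only [Set.mem_ofPred_eq, Set.mem_empty_iff_false, iff_false, not_and]
            intro _ h
            exact hj ⟨_, h⟩
          rw [this, Set.ncard_empty]
          exact Nat.zero_le _
    · refine ⟨i, fun u => σ (f (C u)), ?_, ?_⟩
      · intro u v huv
        obtain ⟨h3, h4⟩ := hfe _ _ (hC u v huv)
        refine ⟨?_, h4⟩
        simp only [F, SimpleGraph.comap_adj, hσσ]
        exact h3
      · intro u hu j
        exact absurd ⟨_, hu⟩ hex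

/-- `s(H) ≤ s(K_r) (n-1)` for `r`-chromatic `H` containing `K_r`. -/
theorem clique_bound' {n r d : ℕ} (hn : 2 ≤ n) (H : SimpleGraph (Fin n))
    (hcol : H.Colorable r) (hcl : ¬ H.CliqueFree r)
    (hd : HasMin (⊤ : SimpleGraph (Fin r)) d) : HasMin H (d * (2 * (n / 2) - 1)) := by
  obtain ⟨C⟩ := hcol
  have hC : ∀ u v, H.Adj u v → C u ≠ C v := fun u v huv => C.valid huv
  obtain ⟨i1, hi1⟩ := large_class (by omega) H C hC
  rw [SimpleGraph.not_cliqueFree_iff_top_isContained] at hcl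
  obtain ⟨g⟩ := hcl
  refine clique_bound H (by omega) C hC i1 hi1 g (fun p q hpq => ?_) hd
  exact g.toHom.map_adj (by simpa using hpq)

/-- no homomorphism to a colour class of a 2-colouring of `K_M` -/
def Free {n : ℕ} (H : SimpleGraph (Fin n)) (M : ℕ) : Prop :=
  ∃ τ : ℕ → ℕ → Fin 2, (∀ p q, τ p q = τ q p) ∧ ∀ (i : Fin 2) (φ : Fin n → ℕ), (∀ u, φ u < M) →
    ∃ u v, H.Adj u v ∧ ¬ (φ u ≠ φ v ∧ τ (φ u) (φ v) = i)

theorem top_neighbor (M : ℕ) :
    ((⊤ : SimpleGraph (Fin (M + 1))).neighborSet (Fin.last M)).ncard = M := by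
  have : (⊤ : SimpleGraph (Fin (M + 1))).neighborSet (Fin.last M) = {Fin.last M}ᶜ := by
    ext p
    simp [SimpleGraph.mem_neighborSet, eq_comm]
  rw [this, Set.ncard_compl, Set.ncard_singleton]
  simp

/-- The blow-up lemma for complete graphs. -/
theorem top_bound {n M a : ℕ} (H : SimpleGraph (Fin n)) (ha : 1 ≤ a) (hM : Free H M)
    (hP : ∀ τ : Fin (M + 1) → Fin (M + 1) → Fin 2, (∀ p q, τ p q = τ q p) →
      ∃ (i : Fin 2) (φ : Fin n → Fin (M + 1)),
        (∀ u v, H.Adj u v → φ u ≠ φ v ∧ τ (φ u) (φ v) = i) ∧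
        ∀ u, φ u = Fin.last M → ∀ j, {w | H.Adj u w ∧ φ w = j}.ncard ≤ a) :
    HasMin H (M * (2 * a - 1)) := by
  have := blowup (a := a) H (⊤ : SimpleGraph (Fin (M + 1))) ha ?_ ?_
  · rwa [top_neighbor] at this
  · obtain ⟨τ, hτ, hno⟩ := hM
    refine ⟨fun p q => τ p q, fun p q => hτ _ _, fun i φ hφ => ?_⟩
    obtain ⟨u, v, huv, hneg⟩ := hno i (fun u => φ u) (fun u => by
      have h1 := hφ u
      have h2 : (φ u : ℕ) ≠ M := fun h => h1 (Fin.ext h)
      have := (φ u).2
      omega)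
    refine ⟨u, v, huv, fun h => hneg ⟨fun h' => ?_, h.2⟩⟩
    exact h.1 (Fin.ext h')
  · intro τ hτ
    obtain ⟨i, φ, h1, h2⟩ := hP τ hτ
    exact ⟨i, φ, fun u v huv => ⟨by simpa using (h1 u v huv).1, (h1 u v huv).2⟩, h2⟩

theorem degree_bound {n : ℕ} (H : SimpleGraph (Fin n)) {D : ℕ}
    (hD : ∀ u, (H.neighborSet u).ncard ≤ D) {β : Type} (φ : Fin n → β) (u : Fin n) (j : β) :
    {w | H.Adj u w ∧ φ w = j}.ncard ≤ D := by
  refine le_trans ?_ (hD u)
  apply Set.ncard_le_ncard _ (Set.toFinite _)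
  rintro w ⟨hw, -⟩
  exact hw

/-- `M`-bound with the maximum degree. -/
theorem hom_bound {n M D : ℕ} (H : SimpleGraph (Fin n)) (hD1 : 1 ≤ D)
    (hD : ∀ u, (H.neighborSet u).ncard ≤ D) (hM : Free H M) (hM1 : ¬ Free H (M + 1)) :
    HasMin H (M * (2 * D - 1)) := by
  classical
  refine top_bound H hD1 hM ?_
  intro τ hτ
  by_contra hcon
  push Not at hcon
  apply hM1
  refine ⟨fun x y => if h : x < M + 1 ∧ y < M + 1 then τ ⟨x, h.1⟩ ⟨y, h.2⟩ else 0, ?_, ?_⟩
  · intro x y
    by_cases h : x < M + 1 ∧ y < M + 1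
    · simp only [dif_pos h, dif_pos h.symm]
      exact hτ _ _
    · have h' : ¬ (y < M + 1 ∧ x < M + 1) := fun h' => h h'.symm
      simp only [dif_neg h, dif_neg h']
  · intro i φ hφ
    by_contra hcon2
    push Not at hcon2
    obtain ⟨u, -, j, hj⟩ := hcon i (fun u => ⟨φ u, hφ u⟩) (by
      intro u v huv
      obtain ⟨h1, h2⟩ := hcon2 u v huv
      refine ⟨fun h => h1 (congrArg Fin.val h), ?_⟩
      rwa [dif_pos ⟨hφ u, hφ v⟩] at h2)
    exact absurd (degree_bound H hD _ u j) (not_le.2 hj)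

/-- bound in the case that some 2-colouring of `K_(R-1)` is free and `K_R → K_r` -/
theorem class_bound {n r M : ℕ} (hn : 2 ≤ n) (H : SimpleGraph (Fin n)) (hcol : H.Colorable r)
    (hR : CliqueArrow (M + 1) r) (hM : Free H M) : HasMin H (M * (2 * (n / 2) - 1)) := by
  classical
  obtain ⟨C⟩ := hcol
  have hC : ∀ u v, H.Adj u v → C u ≠ C v := fun u v huv => C.valid huv
  obtain ⟨i1, hi1⟩ := large_class (by omega) H C hC
  refine top_bound H (by omega) hM ?_
  intro τ hτ
  obtain ⟨i, f, hf, hfe⟩ := hR τ hτ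
  by_cases hex : ∃ a0, f a0 = Fin.last M
  · obtain ⟨a0, ha0⟩ := hex
    obtain ⟨C', hC', hC'a⟩ := swap_colouring H C hC _ i1 hi1 a0
    refine ⟨i, fun u => f (C' u), ?_, ?_⟩
    · intro u v huv
      exact ⟨fun h => hC' u v huv (hf h), hfe _ _ (hC' u v huv)⟩
    · intro u hu j
      have hu0 : C' u = a0 := hf (hu.trans ha0.symm)
      by_cases hj : ∃ b0, f b0 = j
      · obtain ⟨b0, rfl⟩ := hj
        refine le_trans ?_ (hC'a u hu0 b0)
        apply Set.ncard_le_ncard _ (Set.toFinite _)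
        rintro w ⟨hw1, hw2⟩
        exact ⟨hw1, hf hw2⟩
      · have : {w | H.Adj u w ∧ f (C' w) = j} = ∅ := by
          ext w
          simp only [Set.mem_ofPred_eq, Set.mem_empty_iff_false, iff_false, not_and]
          intro _ h
          exact hj ⟨_, h⟩
        rw [this, Set.ncard_empty]
        exact Nat.zero_le _
  · refine ⟨i, fun u => f (C u), ?_, ?_⟩
    · intro u v huv
      exact ⟨fun h => hC u v huv (hf h), hfe _ _ (hC u v huv)⟩
    · intro u hu j
      exact absurd ⟨_, hu⟩ hex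

/-- Existence of the threshold `M`. -/
theorem exists_threshold {n r R : ℕ} (H : SimpleGraph (Fin n)) (hH : H ≠ ⊥) (hcol : H.Colorable r)
    (hR : CliqueArrow R r) : ∃ M, 1 ≤ M ∧ M + 1 ≤ R ∧ Free H M ∧ ¬ Free H (M + 1) := by
  classical
  have h1 : Free H 1 := by
    refine ⟨fun _ _ => 0, fun _ _ => rfl, ?_⟩
    intro i φ hφ
    have hex : ∃ u v, H.Adj u v := by
      by_contra hcon
      push Not at hcon
      apply hH
      ext u v
      simp [hcon u v]
    obtain ⟨u, v, huv⟩ := hex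
    refine ⟨u, v, huv, fun h => h.1 ?_⟩
    have := hφ u
    have := hφ v
    omega
  have h2 : ¬ Free H R := by
    rintro ⟨τ, hτ, hno⟩
    obtain ⟨C⟩ := hcol
    obtain ⟨i, g, hg, hge⟩ := hR (fun p q => τ p q) (fun p q => hτ _ _)
    obtain ⟨u, v, huv, hneg⟩ := hno i (fun u => (g (C u) : ℕ)) (fun u => (g (C u)).2)
    exact hneg ⟨fun h => C.valid huv (hg (Fin.ext h)), hge _ _ (C.valid huv)⟩
  have hmono : ∀ x y, x ≤ y → Free H y → Free H x := by
    rintro x y hxy ⟨τ, hτ, hno⟩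
    exact ⟨τ, hτ, fun i φ hφ => hno i φ (fun u => (hφ u).trans_le hxy)⟩
  have hex : ∃ m, ¬ Free H m := ⟨R, h2⟩
  have hf := Nat.find_spec hex
  have hm1 : 1 < Nat.find hex := by
    by_contra hle
    exact hf (hmono _ 1 (by omega) h1)
  refine ⟨Nat.find hex - 1, by omega, ?_, ?_, ?_⟩
  · have := Nat.find_min' hex h2
    omega
  · by_contra h
    have := Nat.find_min' hex h
    omega
  · rwa [Nat.sub_add_cancel (by omega)]

theorem exists_adj_degree {n D : ℕ} (H : SimpleGraph (Fin n)) (hH : H ≠ ⊥)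
    (hD : ∀ u, (H.neighborSet u).ncard ≤ D) : 1 ≤ D ∧ 2 ≤ n := by
  have hex : ∃ u v, H.Adj u v := by
    by_contra hcon
    push Not at hcon
    apply hH
    ext u v
    simp [hcon u v]
  obtain ⟨u, v, huv⟩ := hex
  constructor
  · refine le_trans ?_ (hD u)
    rw [Nat.succ_le_iff, Set.ncard_pos (Set.toFinite _)]
    exact ⟨v, huv⟩
  · have hne := H.ne_of_adj huv
    have hu := u.2
    have hv := v.2
    have : (u : ℕ) ≠ v := fun h => hne (Fin.ext h)
    omega

/-- General bound. -/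
theorem general_bound {n r R D : ℕ} (H : SimpleGraph (Fin n)) (hH : H ≠ ⊥) (hcol : H.Colorable r)
    (hR : CliqueArrow R r) (hD : ∀ u, (H.neighborSet u).ncard ≤ D) :
    HasMin H ((R - 1) * (2 * D - 1)) ∧
      HasMin H (max ((R - 1) * (2 * (n / 2) - 1)) ((R - 2) * (2 * D - 1))) := by
  obtain ⟨hD1, hn⟩ := exists_adj_degree H hH hD
  obtain ⟨M, hM1, hMR, hM, hM'⟩ := exists_threshold H hH hcol hR
  have h1 := hom_bound H hD1 hD hM hM'
  refine ⟨h1.mono (Nat.mul_le_mul_right _ (by omega)), ?_⟩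
  rcases Nat.lt_or_ge (M + 1) R with hlt | hge
  · exact (h1.mono (Nat.mul_le_mul_right _ (by omega))).mono (le_max_right _ _)
  · have : R = M + 1 := by omega
    subst this
    exact (class_bound hn H hcol hR hM).mono (le_max_left _ _)

/-- `H` has no induced star with more than `a` leaves. -/
def StarBound {n : ℕ} (H : SimpleGraph (Fin n)) (a : ℕ) : Prop :=
  ∀ (u : Fin n) (J : Finset (Fin n)), (∀ w ∈ J, H.Adj u w) →
    (∀ w ∈ J, ∀ w' ∈ J, ¬ H.Adj w w') → J.card ≤ a

theorem StarBound.ncard_le {n a : ℕ} {H : SimpleGraph (Fin n)} (h : StarBound H a) {β : Type}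
    (φ : Fin n → β) (hφ : ∀ u v, H.Adj u v → φ u ≠ φ v) (u : Fin n) (j : β) :
    {w | H.Adj u w ∧ φ w = j}.ncard ≤ a := by
  classical
  have h1 := h u (Finset.univ.filter (fun w => H.Adj u w ∧ φ w = j)) (by
    intro w hw
    exact (Finset.mem_filter.1 hw).2.1) (by
    intro w hw w' hw' hadj
    exact hφ w w' hadj (((Finset.mem_filter.1 hw).2.2).trans ((Finset.mem_filter.1 hw').2.2).symm))
  rw [← Set.ncard_coe_finset] at h1
  refine le_trans (Set.ncard_le_ncard ?_ (Set.toFinite _)) h1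
  rintro w ⟨hw1, hw2⟩
  simp [hw1, hw2]

theorem StarBound.one_le {n a : ℕ} {H : SimpleGraph (Fin n)} (h : StarBound H a) (hH : H ≠ ⊥) :
    1 ≤ a ∧ 2 ≤ n := by
  have hex : ∃ u v, H.Adj u v := by
    by_contra hcon
    push Not at hcon
    apply hH
    ext u v
    simp [hcon u v]
  obtain ⟨u, v, huv⟩ := hex
  constructor
  · have := h u {v} (by simpa using huv) (by
      intro w hw w' hw'
      rw [Finset.mem_singleton] at hw hw'
      rw [hw, hw']
      exact H.irrefl)
    simpa using this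
  · have hne := H.ne_of_adj huv
    have hu := u.2
    have hv := v.2
    have : (u : ℕ) ≠ v := fun h => hne (Fin.ext h)
    omega

theorem starBound_of_degree {n D : ℕ} (H : SimpleGraph (Fin n))
    (hD : ∀ u, (H.neighborSet u).ncard ≤ D) : StarBound H D := by
  intro u J hJ _
  refine le_trans ?_ (hD u)
  rw [← Set.ncard_coe_finset]
  exact Set.ncard_le_ncard (fun w hw => hJ w hw) (Set.toFinite _)

/-- The blow-up lemma, for an arbitrary vertex of `F`. -/
theorem blowup_star {n m a : ℕ} (H : SimpleGraph (Fin n)) (hH : H ≠ ⊥) (ha : StarBound H a)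
    (F : SimpleGraph (Fin m)) (x : Fin m)
    (hP : ∀ τ : Fin m → Fin m → Fin 2, (∀ p q, τ p q = τ q p) →
      ∃ (i : Fin 2) (φ : Fin n → Fin m),
        ∀ u v, H.Adj u v → F.Adj (φ u) (φ v) ∧ τ (φ u) (φ v) = i)
    (hQ : ∃ τ : Fin m → Fin m → Fin 2, (∀ p q, τ p q = τ q p) ∧
      ∀ (i : Fin 2) (φ : Fin n → Fin m), (∀ u, φ u ≠ x) →
        ¬ ∀ u v, H.Adj u v → F.Adj (φ u) (φ v) ∧ τ (φ u) (φ v) = i) :
    HasMin H ((F.neighborSet x).ncard * (2 * a - 1)) := by
  classical
  obtain ⟨M, rfl⟩ : ∃ M, m = M + 1 := ⟨m - 1, by have := x.pos; omega⟩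
  let σ : Equiv.Perm (Fin (M + 1)) := Equiv.swap x (Fin.last M)
  have hσl : σ (Fin.last M) = x := Equiv.swap_apply_right _ _
  have hσσ : ∀ y, σ (σ y) = y := fun y => Equiv.swap_apply_self _ _ _
  let F' : SimpleGraph (Fin (M + 1)) := F.comap σ
  have hdeg : (F'.neighborSet (Fin.last M)).ncard ≤ (F.neighborSet x).ncard := by
    rw [← Set.ncard_image_of_injective _ σ.injective]
    apply Set.ncard_le_ncard _ (Set.toFinite _)
    rintro _ ⟨y, hy, rfl⟩
    simp only [F', SimpleGraph.mem_neighborSet, SimpleGraph.comap_adj] at hy ⊢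
    rwa [hσl] at hy
  refine (blowup (M := M) (a := a) H F' (ha.one_le hH).1 ?_ ?_).mono (Nat.mul_le_mul_right _ hdeg)
  · obtain ⟨τ, hτ, hno⟩ := hQ
    refine ⟨fun p q => τ (σ p) (σ q), fun p q => hτ _ _, ?_⟩
    intro i φ hφ
    have := hno i (fun u => σ (φ u)) (by
      intro u h
      apply hφ u
      rw [← hσσ (φ u), h]
      exact Equiv.swap_apply_left _ _)
    push Not at this
    obtain ⟨u, v, huv, hneg⟩ := this
    exact ⟨u, v, huv, fun h => hneg h.1 h.2⟩
  · intro τ hτ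
    obtain ⟨i, φ, hφ⟩ := hP (fun p q => τ (σ p) (σ q)) (fun p q => hτ _ _)
    have h1 : ∀ u v, H.Adj u v → F'.Adj (σ (φ u)) (σ (φ v)) ∧ τ (σ (φ u)) (σ (φ v)) = i := by
      intro u v huv
      obtain ⟨h3, h4⟩ := hφ u v huv
      refine ⟨?_, h4⟩
      simp only [F', SimpleGraph.comap_adj, hσσ]
      exact h3
    refine ⟨i, fun u => σ (φ u), h1, fun u _ j => ?_⟩
    exact ha.ncard_le _ (fun u v huv => F'.ne_of_adj (h1 u v huv).1) u j

/-- `M`-bound with the star bound. -/
theorem hom_bound_star {n M a : ℕ} (H : SimpleGraph (Fin n)) (hH : H ≠ ⊥) (ha : StarBound H a)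
    (hM : Free H M) (hM1 : ¬ Free H (M + 1)) :
    HasMin H (M * (2 * a - 1)) := by
  classical
  refine top_bound H (ha.one_le hH).1 hM ?_
  intro τ hτ
  by_contra hcon
  push Not at hcon
  apply hM1
  refine ⟨fun x y => if h : x < M + 1 ∧ y < M + 1 then τ ⟨x, h.1⟩ ⟨y, h.2⟩ else 0, ?_, ?_⟩
  · intro x y
    by_cases h : x < M + 1 ∧ y < M + 1
    · simp only [dif_pos h, dif_pos h.symm]
      exact hτ _ _
    · have h' : ¬ (y < M + 1 ∧ x < M + 1) := fun h' => h h'.symm
      simp only [dif_neg h, dif_neg h']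
  · intro i φ hφ
    by_contra hcon2
    push Not at hcon2
    have h1 : ∀ u v, H.Adj u v → (⟨φ u, hφ u⟩ : Fin (M + 1)) ≠ ⟨φ v, hφ v⟩ := fun u v huv h =>
      (hcon2 u v huv).1 (congrArg Fin.val h)
    obtain ⟨u, -, j, hj⟩ := hcon i (fun u => ⟨φ u, hφ u⟩) (by
      intro u v huv
      refine ⟨h1 u v huv, ?_⟩
      have h2 := (hcon2 u v huv).2
      rwa [dif_pos ⟨hφ u, hφ v⟩] at h2)
    exact absurd (ha.ncard_le _ h1 u j) (not_le.2 hj)

/-- General bound. -/
theorem general_star {n r R a : ℕ} (H : SimpleGraph (Fin n)) (hH : H ≠ ⊥) (hcol : H.Colorable r)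
    (hR : CliqueArrow R r) (ha : StarBound H a) :
    HasMin H ((R - 1) * (2 * a - 1)) ∧
      HasMin H (max ((R - 1) * (2 * (n / 2) - 1)) ((R - 2) * (2 * a - 1))) := by
  obtain ⟨ha1, hn⟩ := ha.one_le hH
  obtain ⟨M, hM1, hMR, hM, hM'⟩ := exists_threshold H hH hcol hR
  have h1 := hom_bound_star H hH ha hM hM'
  refine ⟨h1.mono (Nat.mul_le_mul_right _ (by omega)), ?_⟩
  rcases Nat.lt_or_ge (M + 1) R with hlt | hge
  · exact (h1.mono (Nat.mul_le_mul_right _ (by omega))).mono (le_max_right _ _)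
  · have : R = M + 1 := by omega
    subst this
    exact (class_bound hn H hcol hR hM).mono (le_max_left _ _)

/-- Clique bound. -/
theorem clique_star {n r d a : ℕ} (H : SimpleGraph (Fin n)) (hH : H ≠ ⊥)
    (hcol : H.Colorable r) (hcl : ¬ H.CliqueFree r) (ha : StarBound H a)
    (hd : HasMin (⊤ : SimpleGraph (Fin r)) d) :
    HasMin H (d * (2 * a - 1)) ∧ HasMin H (d * (n - 1)) := by
  obtain ⟨ha1, hn⟩ := ha.one_le hH
  have h2 := clique_bound' hn H hcol hcl hd
  obtain ⟨C⟩ := hcol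
  have hC : ∀ u v, H.Adj u v → C u ≠ C v := fun u v huv => C.valid huv
  rw [SimpleGraph.not_cliqueFree_iff_top_isContained] at hcl
  obtain ⟨g⟩ := hcl
  have hr : Nonempty (Fin r) := ⟨C ⟨0, by omega⟩⟩
  refine ⟨clique_bound H ha1 C hC hr.some (fun u _ j => ha.ncard_le C hC u j) g
    (fun p q hpq => g.toHom.map_adj (by simpa using hpq)) hd, h2.mono ?_⟩
  exact Nat.mul_le_mul_left _ (by omega)

end Pool.Agent.Helper94.MinRam
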