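import Mathlib
import Pool.Agent.Helper94.MinRam.Cor

set_option autoImplicit false

namespace Pool.Agent.Helper94.MinRam

open Pool.Agent.Helper94.SWRamsey

/-- Greedy colouring. -/
theorem greedy {n D : ℕ} (H : SimpleGraph (Fin n)) (hD : ∀ u, (H.neighborSet u).ncard ≤ D) :
    H.Colorable (D + 1) := by
  classical
  have key : ∀ S : Finset (Fin n), ∃ C : Fin n → Fin (D + 1), ∀ u ∈ S, ∀ v ∈ S, H.Adj u v →
      C u ≠ C v := by
    intro S
    induction S using Finset.induction_on with
    | empty => exact ⟨fun _ => 0, fun u hu => absurd hu (Finset.notMem_empty _)⟩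
    | insert x S hx ih =>
      obtain ⟨C, hC⟩ := ih
      let nb : Finset (Fin n) := Finset.univ.filter (fun v => H.Adj x v)
      have h1 : (nb.image C).card < (Finset.univ : Finset (Fin (D + 1))).card := by
        have h2 : nb.card ≤ D := by
          have := hD x
          rwa [show H.neighborSet x = (nb : Set (Fin n)) by ext v; simp [nb],
            Set.ncard_coe_finset] at this
        have h3 := Finset.card_image_le (s := nb) (f := C)
        rw [Finset.card_univ, Fintype.card_fin]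
        omega
      obtain ⟨c, -, hc⟩ := Finset.exists_mem_notMem_of_card_lt_card h1
      refine ⟨Function.update C x c, ?_⟩
      intro u hu v hv huv
      have hcx : ∀ w, H.Adj x w → C w ≠ c := by
        intro w hw h
        apply hc
        rw [← h]
        exact Finset.mem_image_of_mem _ (Finset.mem_filter.2 ⟨Finset.mem_univ _, hw⟩)
      rcases Finset.mem_insert.1 hu with rfl | hu <;> rcases Finset.mem_insert.1 hv with rfl | hv
      · exact absurd huv H.irrefl
      · rw [Function.update_self, Function.update_of_ne (H.ne_of_adj huv).symm]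
        exact (hcx v huv).symm
      · rw [Function.update_self, Function.update_of_ne (H.ne_of_adj huv)]
        exact hcx u huv.symm
      · have hux : u ≠ x := fun h => hx (h ▸ hu)
        have hvx : v ≠ x := fun h => hx (h ▸ hv)
        rw [Function.update_of_ne hux, Function.update_of_ne hvx]
        exact hC u hu v hv huv
  obtain ⟨C, hC⟩ := key Finset.univ
  exact ⟨SimpleGraph.Coloring.mk C (fun {u v} huv => hC u (Finset.mem_univ _) v (Finset.mem_univ _) huv)⟩

/-- Ramsey's theorem for graphs. -/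
theorem exists_cliqueArrow (r : ℕ) : ∃ R, CliqueArrow R r := by
  obtain ⟨N, hN⟩ := ramsey2 (Fin 2) r
  refine ⟨N, fun τ hτ => ?_⟩
  rcases Nat.eq_zero_or_pos N with rfl | hNpos
  · -- then `r = 0`
    obtain ⟨h, -, h2, -⟩ := hN (fun _ _ => 0)
    rcases Nat.eq_zero_or_pos r with rfl | hr
    · exact ⟨0, fun a => a.elim0, fun a => a.elim0, fun a => a.elim0⟩
    · exact absurd (h2 0 hr) (Nat.not_lt_zero _)
  obtain ⟨h, h1, h2, i, hi⟩ := hN (fun x y => if hxy : x < N ∧ y < N then τ ⟨x, hxy.1⟩ ⟨y, hxy.2⟩ else 0)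
  refine ⟨i, fun a => ⟨h a, h2 a a.2⟩, ?_, ?_⟩
  · intro a b hab
    have hab' : h a = h b := congrArg Fin.val hab
    rcases lt_trichotomy (a : ℕ) (b : ℕ) with hlt | heq | hgt
    · have := h1 a b hlt b.2; omega
    · exact Fin.ext heq
    · have := h1 b a hgt a.2; omega
  · intro a b hab
    rcases lt_trichotomy (a : ℕ) (b : ℕ) with hlt | heq | hgt
    · have := hi a b hlt b.2
      rw [dif_pos ⟨h2 a a.2, h2 b b.2⟩] at this
      exact this
    · exact absurd (Fin.ext heq) hab
    · have := hi b a hgt a.2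
      rw [dif_pos ⟨h2 b b.2, h2 a a.2⟩] at this
      rw [hτ]
      exact this

/-- `d` is the minimum degree of `H`. -/
def IsMinDeg {n : ℕ} (H : SimpleGraph (Fin n)) (d : ℕ) : Prop :=
  (∃ v : Fin n, (H.neighborSet v).ncard = d) ∧ ∀ w : Fin n, d ≤ (H.neighborSet w).ncard

theorem hasMin_one (H : SimpleGraph (Fin 1)) (k : ℕ) : HasMin H k := by
  refine ⟨1, ⊥, ?_, ?_, 0, ?_⟩
  · intro c _
    refine ⟨0, id, Function.injective_id, ?_⟩
    intro u v huv
    exact absurd huv (by rw [Subsingleton.elim u v]; exact H.irrefl)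
  · intro S G' hG' hne
    have hG : G' = ⊥ := le_bot_iff.1 hG'
    refine ⟨fun _ _ => 0, fun _ _ => rfl, ?_⟩
    intro i f _ hfS
    exfalso
    apply hne
    refine ⟨?_, hG⟩
    ext x
    simp only [Set.mem_univ, iff_true]
    rw [Subsingleton.elim x (f 0)]
    exact hfS 0
  · simp

theorem ne_bot_of_connected {n : ℕ} (hn : 2 ≤ n) (H : SimpleGraph (Fin n)) (hc : H.Connected) :
    H ≠ ⊥ := by
  rintro rfl
  have h1 : (⟨0, by omega⟩ : Fin n) ≠ ⟨1, by omega⟩ := by
    intro h
    exact absurd (congrArg Fin.val h) (by simp)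
  have h2 := hc.preconnected ⟨0, by omega⟩ ⟨1, by omega⟩
  rw [SimpleGraph.reachable_bot] at h2
  exact h1 h2

theorem minDeg_pos {n d : ℕ} (hn : 2 ≤ n) (H : SimpleGraph (Fin n)) (hc : H.Connected)
    (hd : IsMinDeg H d) : 1 ≤ d := by
  obtain ⟨v, hv⟩ := hd.1
  rw [← hv, Nat.succ_le_iff, Set.ncard_pos (Set.toFinite _)]
  have : Nontrivial (Fin n) := Fin.nontrivial_iff_two_le.2 hn
  obtain ⟨w, hw⟩ := exists_ne v
  obtain ⟨p⟩ := hc.preconnected v w
  cases p with
  | nil => exact absurd rfl hw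
  | cons h _ => exact ⟨_, h⟩

theorem degree_lt {n : ℕ} (H : SimpleGraph (Fin n)) (u : Fin n) :
    (H.neighborSet u).ncard ≤ n - 1 := by
  have h1 : H.neighborSet u ⊆ {u}ᶜ := by
    intro v hv
    simp only [Set.mem_compl_iff, Set.mem_singleton_iff]
    exact (H.ne_of_adj hv).symm
  refine (Set.ncard_le_ncard h1 (Set.toFinite _)).trans ?_
  rw [Set.ncard_compl, Set.ncard_singleton]
  simp

/-- Q1 for large minimum degree. -/
theorem q1_minDeg {n r R d : ℕ} (H : SimpleGraph (Fin n)) (hc : H.Connected) (hcol : H.Colorable r)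
    (hR : CliqueArrow R r) (hd : IsMinDeg H d)
    (h : 2 * R ≤ d + 4 ∨ (R ≤ d + 1 ∧ StarBound H (n / 2))) : HasMin H (d * (n - 1)) := by
  have hn0 : 0 < n := by
    obtain ⟨v⟩ := hc.nonempty
    exact v.pos
  rcases Nat.lt_or_ge n 2 with hn | hn
  · obtain rfl : n = 1 := by omega
    exact hasMin_one H _
  have hH := ne_bot_of_connected hn H hc
  have hd1 := minDeg_pos hn H hc hd
  have hR2 : 2 ≤ R := by
    obtain ⟨M, h1, h2, -, -⟩ := exists_threshold H hH hcol hR
    omega
  rcases h with h | ⟨h, hs⟩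
  · have h1 := (general_star H hH hcol hR (starBound_of_degree H (degree_lt H))).2
    refine h1.mono (max_le ?_ ?_)
    · exact Nat.mul_le_mul (by omega) (by omega)
    · obtain ⟨k, rfl⟩ : ∃ k, R = k + 2 := ⟨R - 2, by omega⟩
      obtain ⟨m, rfl⟩ : ∃ m, n = m + 2 := ⟨n - 2, by omega⟩
      have h2 : 2 * k ≤ d := by omega
      calc (k + 2 - 2) * (2 * (m + 2 - 1) - 1) ≤ k * (2 * (m + 1)) :=
            Nat.mul_le_mul (by omega) (by omega)
        _ = (2 * k) * (m + 1) := by ring
        _ ≤ d * (m + 2 - 1) := Nat.mul_le_mul h2 (by omega)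
  · have h1 := (general_star H hH hcol hR hs).1
    refine h1.mono (Nat.mul_le_mul (by omega) (by omega))

theorem cliqueArrow_two : CliqueArrow 2 2 := by
  intro τ hτ
  refine ⟨τ 0 1, id, Function.injective_id, ?_⟩
  intro a b hab
  fin_cases a <;> fin_cases b
  · exact absurd rfl hab
  · rfl
  · exact hτ 1 0
  · exact absurd rfl hab

/-- Q1 for bipartite graphs. -/
theorem q1_bipartite {n d : ℕ} (H : SimpleGraph (Fin n)) (hc : H.Connected) (hcol : H.Colorable 2)
    (hd : IsMinDeg H d) : HasMin H (d * (n - 1)) :=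
  q1_minDeg H hc hcol cliqueArrow_two hd (Or.inl (by omega))

/-- Q1 when `K_r ⊆ H`, `χ(H) = r` and `s(K_r) ≤ δ(H)`. -/
theorem q1_clique {n r d : ℕ} (H : SimpleGraph (Fin n)) (hc : H.Connected) (hcol : H.Colorable r)
    (hcl : ¬ H.CliqueFree r) (hd : HasMin (⊤ : SimpleGraph (Fin r)) d) : HasMin H (d * (n - 1)) := by
  have hn0 : 0 < n := by
    obtain ⟨v⟩ := hc.nonempty
    exact v.pos
  rcases Nat.lt_or_ge n 2 with hn | hn
  · obtain rfl : n = 1 := by omega
    exact hasMin_one H _
  exact (clique_star H (ne_bot_of_connected hn H hc) hcol hcl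
    (starBound_of_degree H (degree_lt H)) hd).2

/-- Q1 for all but finitely many connected graphs of given maximum degree. -/
theorem q1_bounded (D : ℕ) : ∃ n₀ : ℕ, ∀ n : ℕ, n₀ ≤ n → ∀ H : SimpleGraph (Fin n), H.Connected →
    (∀ u, (H.neighborSet u).ncard ≤ D) → ∀ d, IsMinDeg H d → HasMin H (d * (n - 1)) := by
  obtain ⟨R, hR⟩ := exists_cliqueArrow (D + 1)
  refine ⟨(R - 1) * (2 * D - 1) + 2, fun n hn H hc hD d hd => ?_⟩
  have hn2 : 2 ≤ n := by omega
  have hH := ne_bot_of_connected hn2 H hc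
  have hd1 := minDeg_pos hn2 H hc hd
  have h1 := (general_star H hH (greedy H hD) hR (starBound_of_degree H hD)).1
  refine h1.mono ?_
  calc (R - 1) * (2 * D - 1) ≤ 1 * (n - 1) := by omega
    _ ≤ d * (n - 1) := Nat.mul_le_mul_right _ hd1

end Pool.Agent.Helper94.MinRam
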