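import Mathlib
import Pool.Agent.Helper94.MinRam.Fin

set_option autoImplicit false

namespace Pool.Agent.Helper94.MinRam

/-- the colouring of `K_5` given by ten colours -/
def tau5 (a01 a02 a03 a04 a12 a13 a14 a23 a24 a34 : Bool) : Fin 5 → Fin 5 → Bool
  | 0, 1 => a01 | 1, 0 => a01
  | 0, 2 => a02 | 2, 0 => a02
  | 0, 3 => a03 | 3, 0 => a03
  | 0, 4 => a04 | 4, 0 => a04
  | 1, 2 => a12 | 2, 1 => a12
  | 1, 3 => a13 | 3, 1 => a13
  | 1, 4 => a14 | 4, 1 => a14
  | 2, 3 => a23 | 3, 2 => a23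
  | 2, 4 => a24 | 4, 2 => a24
  | 3, 4 => a34 | 4, 3 => a34
  | _, _ => false

/-- six 5-cycles -/
def cyc : Fin 6 → Fin 5 → Fin 5
  | 0, 0 => 1 | 0, 1 => 2 | 0, 2 => 3 | 0, 3 => 4 | 0, 4 => 0
  | 1, 0 => 1 | 1, 1 => 2 | 1, 2 => 4 | 1, 4 => 3 | 1, 3 => 0
  | 2, 0 => 1 | 2, 1 => 3 | 2, 3 => 2 | 2, 2 => 4 | 2, 4 => 0
  | 3, 0 => 1 | 3, 1 => 3 | 3, 3 => 4 | 3, 4 => 2 | 3, 2 => 0
  | 4, 0 => 1 | 4, 1 => 4 | 4, 4 => 2 | 4, 2 => 3 | 4, 3 => 0
  | 5, 0 => 1 | 5, 1 => 4 | 5, 4 => 3 | 5, 3 => 2 | 5, 2 => 0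

theorem pent_bool : ∀ a01 a02 a03 a04 a12 a13 a14 a23 a24 a34 : Bool,
    (∃ p q s : Fin 5, p < q ∧ q < s ∧
      tau5 a01 a02 a03 a04 a12 a13 a14 a23 a24 a34 p q =
        tau5 a01 a02 a03 a04 a12 a13 a14 a23 a24 a34 q s ∧
      tau5 a01 a02 a03 a04 a12 a13 a14 a23 a24 a34 p q =
        tau5 a01 a02 a03 a04 a12 a13 a14 a23 a24 a34 p s) ∨
    (∃ k : Fin 6, ∀ p q : Fin 5, p < q →
      tau5 a01 a02 a03 a04 a12 a13 a14 a23 a24 a34 (cyc k p) (cyc k q) =
        tau5 a01 a02 a03 a04 a12 a13 a14 a23 a24 a34 p q) := by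
  decide +kernel

theorem cyc_inj : ∀ k : Fin 6, Function.Injective (cyc k) := by decide +kernel

theorem cyc_trans : ∀ (k : Fin 6) (j : Fin 5), ∃ m : Fin 5, (cyc k)^[m] j = 4 := by decide +kernel

theorem fin2_eq {x y : Fin 2} (h : decide (x = 1) = decide (y = 1)) : x = y := by
  fin_cases x <;> fin_cases y <;> simp_all

theorem inj3 {α : Type} {p q s : α} (hpq : p ≠ q) (hps : p ≠ s) (hqs : q ≠ s) :
    Function.Injective ![p, q, s] := by
  intro x y hxy
  fin_cases x <;> fin_cases y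
  · rfl
  · exact absurd hxy hpq
  · exact absurd hxy hps
  · exact absurd hxy hpq.symm
  · rfl
  · exact absurd hxy hqs
  · exact absurd hxy hps.symm
  · exact absurd hxy hqs.symm
  · rfl

/-- A 2-colouring of `K_5` has a monochromatic triangle or a transitive symmetry. -/
theorem pent (τ : Fin 5 → Fin 5 → Fin 2) (hτ : ∀ p q, τ p q = τ q p) :
    (∃ i : Fin 2, ∃ g : Fin 3 → Fin 5, Function.Injective g ∧ ∀ a b, a ≠ b → τ (g a) (g b) = i) ∨
    (∃ σ : Fin 5 → Fin 5, Function.Injective σ ∧ (∀ p q, p ≠ q → τ (σ p) (σ q) = τ p q) ∧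
      ∀ j, ∃ m : ℕ, σ^[m] j = Fin.last 4) := by
  let b : Fin 5 → Fin 5 → Bool := fun p q => decide (τ p q = 1)
  have hb : ∀ p q, p ≠ q → tau5 (b 0 1) (b 0 2) (b 0 3) (b 0 4) (b 1 2) (b 1 3) (b 1 4) (b 2 3)
      (b 2 4) (b 3 4) p q = b p q := by
    intro p q hpq
    have hs : ∀ p q, b p q = b q p := by
      intro p q
      simp only [b, hτ p q]
    fin_cases p <;> fin_cases q <;>
      first
        | exact absurd rfl hpq
        | rfl
        | (exact hs _ _)
  rcases pent_bool (b 0 1) (b 0 2) (b 0 3) (b 0 4) (b 1 2) (b 1 3) (b 1 4) (b 2 3)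
      (b 2 4) (b 3 4) with ⟨p, q, s, hpq, hqs, h1, h2⟩ | ⟨k, hk⟩
  · left
    rw [hb p q hpq.ne, hb q s hqs.ne] at h1
    rw [hb p q hpq.ne, hb p s (hpq.trans hqs).ne] at h2
    have h1' : τ p q = τ q s := fin2_eq h1
    have h2' : τ p q = τ p s := fin2_eq h2
    refine ⟨τ p q, ![p, q, s], ?_, ?_⟩
    · exact inj3 hpq.ne (hpq.trans hqs).ne hqs.ne
    · intro x y hxy
      fin_cases x <;> fin_cases y
      · exact absurd rfl hxy
      · rfl
      · exact h2'.symm
      · exact hτ q p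
      · exact absurd rfl hxy
      · exact h1'.symm
      · exact (hτ s p).trans h2'.symm
      · exact (hτ s q).trans h1'.symm
      · exact absurd rfl hxy
  · right
    refine ⟨cyc k, cyc_inj k, ?_, ?_⟩
    · have key : ∀ p q, p < q → τ (cyc k p) (cyc k q) = τ p q := by
        intro p q hpq
        have := hk p q hpq
        rw [hb _ _ (fun h => hpq.ne (cyc_inj k h)), hb p q hpq.ne] at this
        exact fin2_eq this
      intro p q hpq
      rcases lt_or_gt_of_ne hpq with h | h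
      · exact key p q h
      · rw [hτ, key q p h, hτ]
    · intro j
      obtain ⟨m, hm⟩ := cyc_trans k j
      exact ⟨m, hm⟩

theorem pig5 : ∀ x : Fin 5 → Fin 2, ∃ a b c : Fin 5, a ≠ b ∧ a ≠ c ∧ b ≠ c ∧ x a = x b ∧ x a = x c := by
  decide +kernel

theorem cliqueArrow_six : CliqueArrow 6 3 := by
  intro τ hτ
  obtain ⟨a, b, c, hab, hac, hbc, h1, h2⟩ := pig5 (fun x => τ (Fin.last 5) x.castSucc)
  have hl : ∀ x : Fin 5, Fin.last 5 ≠ x.castSucc := fun x => (Fin.castSucc_ne_last x).symm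
  have mk : ∀ (p q s : Fin 6) (i : Fin 2), p ≠ q → p ≠ s → q ≠ s → τ p q = i → τ p s = i → τ q s = i →
      ∃ i : Fin 2, ∃ g : Fin 3 → Fin 6, Function.Injective g ∧ ∀ a b, a ≠ b → τ (g a) (g b) = i := by
    intro p q s i hpq hps hqs e1 e2 e3
    refine ⟨i, ![p, q, s], ?_, ?_⟩
    · exact inj3 hpq hps hqs
    · intro x y hxy
      fin_cases x <;> fin_cases y
      · exact absurd rfl hxy
      · exact e1
      · exact e2
      · exact (hτ q p).trans e1
      · exact absurd rfl hxy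
      · exact e3
      · exact (hτ s p).trans e2
      · exact (hτ s q).trans e3
      · exact absurd rfl hxy
  have hne : ∀ {x y : Fin 5}, x ≠ y → x.castSucc ≠ y.castSucc := fun h h' => h (Fin.castSucc_injective _ h')
  by_cases e1 : τ a.castSucc b.castSucc = τ (Fin.last 5) a.castSucc
  · exact mk (Fin.last 5) a.castSucc b.castSucc _ (hl _) (hl _) (hne hab) rfl h1.symm e1
  by_cases e2 : τ a.castSucc c.castSucc = τ (Fin.last 5) a.castSucc
  · exact mk (Fin.last 5) a.castSucc c.castSucc _ (hl _) (hl _) (hne hac) rfl h2.symm e2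
  by_cases e3 : τ b.castSucc c.castSucc = τ (Fin.last 5) a.castSucc
  · exact mk (Fin.last 5) b.castSucc c.castSucc _ (hl _) (hl _) (hne hbc) h1.symm h2.symm e3
  · have key : ∀ x y z : Fin 2, x ≠ z → y ≠ z → x = y := by decide
    exact mk a.castSucc b.castSucc c.castSucc _ (hne hab) (hne hac) (hne hbc) rfl
      (key _ _ _ e2 e1) (key _ _ _ e3 e1)

theorem hom_of_not_free {n M : ℕ} (H : SimpleGraph (Fin n)) (hM1 : ¬ Free H (M + 1))
    (τ : Fin (M + 1) → Fin (M + 1) → Fin 2) (hτ : ∀ p q, τ p q = τ q p) :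
    ∃ (i : Fin 2) (φ : Fin n → Fin (M + 1)), ∀ u v, H.Adj u v → φ u ≠ φ v ∧ τ (φ u) (φ v) = i := by
  classical
  by_contra hcon
  push Not at hcon
  apply hM1
  refine ⟨fun x y => if h : x < M + 1 ∧ y < M + 1 then τ ⟨x, h.1⟩ ⟨y, h.2⟩ else 0, ?_, ?_⟩
  · intro x y
    by_cases h : x < M + 1 ∧ y < M + 1
    · simp only [dif_pos h, dif_pos h.symm]
      exact hτ _ _
    · have h' : ¬ (y < M + 1 ∧ x < M + 1) := fun h' => h h'.symm
      simp only [dif_neg h, dif_neg h']
  · intro i φ hφ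
    obtain ⟨u, v, huv, h1⟩ := hcon i (fun u => ⟨φ u, hφ u⟩)
    refine ⟨u, v, huv, fun h => ?_⟩
    refine h1 (fun h2 => h.1 (congrArg Fin.val h2)) ?_
    have h3 := h.2
    beta_reduce at h3
    rwa [dif_pos ⟨hφ u, hφ v⟩] at h3

/-- homomorphism to a monochromatic clique with the largest class at the last vertex -/
theorem clique_hom {n r M : ℕ} (hn : 2 ≤ n) (H : SimpleGraph (Fin n)) (hcol : H.Colorable r)
    (τ : Fin (M + 1) → Fin (M + 1) → Fin 2) (i : Fin 2) (f : Fin r → Fin (M + 1))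
    (hf : Function.Injective f) (hfe : ∀ a b, a ≠ b → τ (f a) (f b) = i) :
    ∃ (i : Fin 2) (φ : Fin n → Fin (M + 1)),
        (∀ u v, H.Adj u v → φ u ≠ φ v ∧ τ (φ u) (φ v) = i) ∧
        ∀ u, φ u = Fin.last M → ∀ j, {w | H.Adj u w ∧ φ w = j}.ncard ≤ n / 2 := by
  classical
  obtain ⟨C⟩ := hcol
  have hC : ∀ u v, H.Adj u v → C u ≠ C v := fun u v huv => C.valid huv
  obtain ⟨i1, hi1⟩ := large_class (by omega) H C hC
  by_cases hex : ∃ a0, f a0 = Fin.last M
  · obtain ⟨a0, ha0⟩ := hex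
    obtain ⟨C', hC', hC'a⟩ := swap_colouring H C hC _ i1 hi1 a0
    refine ⟨i, fun u => f (C' u), ?_, ?_⟩
    · intro u v huv
      exact ⟨fun h => hC' u v huv (hf h), hfe _ _ (hC' u v huv)⟩
    · intro u hu j
      have hu0 : C' u = a0 := hf (hu.trans ha0.symm)
      by_cases hj : ∃ b0, f b0 = j
      · obtain ⟨b0, rfl⟩ := hj
        refine le_trans ?_ (hC'a u hu0 b0)
        apply Set.ncard_le_ncard _ (Set.toFinite _)
        rintro w ⟨hw1, hw2⟩
        exact ⟨hw1, hf hw2⟩
      · have : {w | H.Adj u w ∧ f (C' w) = j} = ∅ := by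
          ext w
          simp only [Set.mem_ofPred_eq, Set.mem_empty_iff_false, iff_false, not_and]
          intro _ h
          exact hj ⟨_, h⟩
        rw [this, Set.ncard_empty]
        exact Nat.zero_le _
  · refine ⟨i, fun u => f (C u), ?_, ?_⟩
    · intro u v huv
      exact ⟨fun h => hC u v huv (hf h), hfe _ _ (hC u v huv)⟩
    · intro u hu j
      exact absurd ⟨_, hu⟩ hex

/-- bound for graphs with homomorphism threshold 4 -/
theorem pent_bound {n : ℕ} (hn : 2 ≤ n) (H : SimpleGraph (Fin n)) (hcol : H.Colorable 3)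
    (h4 : Free H 4) (h5 : ¬ Free H 5) : HasMin H (4 * (2 * (n / 2) - 1)) := by
  classical
  refine top_bound H (by omega) h4 ?_
  intro τ hτ
  rcases pent τ hτ with ⟨i, g, hg, hge⟩ | ⟨σ, hσ, hστ, hσt⟩
  · exact clique_hom hn H hcol τ i g hg hge
  obtain ⟨i, φ, hφ⟩ := hom_of_not_free H h5 τ hτ
  let cl : Fin 5 → Finset (Fin n) := fun j => Finset.univ.filter (fun w => φ w = j)
  have hit : ∀ m : ℕ, Function.Injective σ^[m] := fun m => hσ.iterate m
  have hitτ : ∀ (m : ℕ) (p q : Fin 5), p ≠ q → τ (σ^[m] p) (σ^[m] q) = τ p q := by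
    intro m
    induction m with
    | zero => intro p q _; rfl
    | succ m ih =>
      intro p q hpq
      rw [Function.iterate_succ_apply', Function.iterate_succ_apply', hστ _ _
        (fun h => hpq (hit m h)), ih p q hpq]
  obtain ⟨j0, -, hj0⟩ := Finset.exists_max_image (Finset.univ : Finset (Fin 5))
    (fun j => (cl j).card) Finset.univ_nonempty
  obtain ⟨m, hm⟩ := hσt j0
  refine ⟨i, fun u => σ^[m] (φ u), ?_, ?_⟩
  · intro u v huv
    obtain ⟨h1, h2⟩ := hφ u v huv
    exact ⟨fun h => h1 (hit m h), by rw [hitτ m _ _ h1]; exact h2⟩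
  · intro u hu j
    have hu0 : φ u = j0 := hit m (hu.trans hm.symm)
    by_cases hj : ∃ j', σ^[m] j' = j
    · obtain ⟨j', rfl⟩ := hj
      by_cases hjj : j' = j0
      · have : {w | H.Adj u w ∧ σ^[m] (φ w) = σ^[m] j'} = ∅ := by
          ext w
          simp only [Set.mem_ofPred_eq, Set.mem_empty_iff_false, iff_false, not_and]
          intro h1 h2
          exact (hφ u w h1).1 (by rw [hu0, hit m h2, hjj])
        rw [this, Set.ncard_empty]
        exact Nat.zero_le _
      · have h1 : {w | H.Adj u w ∧ σ^[m] (φ w) = σ^[m] j'}.ncard ≤ (cl j').card := by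
          rw [← Set.ncard_coe_finset]
          apply Set.ncard_le_ncard _ (Set.toFinite _)
          rintro w ⟨-, hw⟩
          simp [cl, hit m hw]
        have h2 : (cl j').card ≤ (cl j0).card := hj0 j' (Finset.mem_univ _)
        have h3 : (cl j').card + (cl j0).card ≤ n := by
          rw [← Finset.card_union_of_disjoint]
          · calc _ ≤ (Finset.univ : Finset (Fin n)).card :=
                  Finset.card_le_card (Finset.subset_univ _)
              _ = n := by simp
          · rw [Finset.disjoint_left]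
            intro w hw1 hw2
            simp only [cl, Finset.mem_filter, Finset.mem_univ, true_and] at hw1 hw2
            exact hjj (hw1.symm.trans hw2)
        show {w | H.Adj u w ∧ σ^[m] (φ w) = σ^[m] j'}.ncard ≤ n / 2
        omega
    · have : {w | H.Adj u w ∧ σ^[m] (φ w) = j} = ∅ := by
        ext w
        simp only [Set.mem_ofPred_eq, Set.mem_empty_iff_false, iff_false, not_and]
        intro _ h
        exact hj ⟨_, h⟩
      rw [this, Set.ncard_empty]
      exact Nat.zero_le _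

theorem free_four {n : ℕ} (H : SimpleGraph (Fin n)) (h2 : ¬ H.Colorable 2) : Free H 4 := by
  refine ⟨fun p q => if p % 2 = q % 2 then 1 else 0, ?_, ?_⟩
  · intro p q
    by_cases h : p % 2 = q % 2
    · simp [h]
    · simp [h, Ne.symm h]
  · intro i φ hφ
    by_contra hcon
    push Not at hcon
    apply h2
    by_cases hi : i = 0
    · subst hi
      refine ⟨SimpleGraph.Coloring.mk (fun u => (⟨φ u % 2, Nat.mod_lt _ (by norm_num)⟩ : Fin 2)) ?_⟩
      intro u v huv h
      have h1 := (hcon u v huv).2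
      have h3 : φ u % 2 = φ v % 2 := congrArg Fin.val h
      simp [h3] at h1
    · have hi1 : i = 1 := by omega
      subst hi1
      refine ⟨SimpleGraph.Coloring.mk (fun u => (⟨φ u / 2, by have := hφ u; omega⟩ : Fin 2)) ?_⟩
      intro u v huv h
      obtain ⟨h0, h1⟩ := hcon u v huv
      have h3 : φ u / 2 = φ v / 2 := congrArg Fin.val h
      by_cases h4 : φ u % 2 = φ v % 2
      · exact h0 (by omega)
      · simp [h4] at h1

/-- Q1 for 3-colourable graphs of minimum degree at least 5. -/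
theorem q1_three {n d : ℕ} (H : SimpleGraph (Fin n)) (hc : H.Connected) (hcol : H.Colorable 3)
    (hd : IsMinDeg H d) (h5 : 5 ≤ d) : HasMin H (d * (n - 1)) := by
  by_cases h2 : H.Colorable 2
  · exact q1_bipartite H hc h2 hd
  have hn0 : 0 < n := by
    obtain ⟨v⟩ := hc.nonempty
    exact v.pos
  rcases Nat.lt_or_ge n 2 with hn | hn
  · obtain rfl : n = 1 := by omega
    exact hasMin_one H _
  have hH := ne_bot_of_connected hn H hc
  obtain ⟨M, hM1, hMR, hM, hM'⟩ := exists_threshold H hH hcol cliqueArrow_six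
  have hM4 : 4 ≤ M := by
    by_contra hlt
    apply hM'
    obtain ⟨τ, hτ, hno⟩ := free_four H h2
    exact ⟨τ, hτ, fun i φ hφ => hno i φ (fun u => (hφ u).trans_le (by omega))⟩
  rcases Nat.lt_or_ge M 5 with hlt | hge
  · obtain rfl : M = 4 := by omega
    exact (pent_bound hn H hcol hM hM').mono (Nat.mul_le_mul (by omega) (by omega))
  · obtain rfl : M = 5 := by omega
    exact (class_bound hn H hcol cliqueArrow_six hM).mono (Nat.mul_le_mul (by omega) (by omega))

end Pool.Agent.Helper94.MinRam
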